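import Pool.Agent.L0h7.TE.Girth

set_option autoImplicit false
set_option linter.unusedSectionVars false

/-! Kernel dimensions over `ℚ(l)` and multiplicities of the eigenvalue `l`. -/

namespace Pool.Agent.L0h7.TE

open Matrix TH57.Thr.Ati Pool.Agent.R719.AT Pool.Agent.R472.Grid Pool.Agent.L0h7.CG
open Pool.Agent.Y477.AV
open Pool.Agent.W656.VA (Val kerDim exists_kerDim val_kerDim base_change gap_val IsLcm)

variable {G : Type} [Group G]

/-- `Q` is a finite connected graph of degree at most `D`, `γ` are voltages, the cover is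
connected if `G` is finitely generated, and its cycles are longer than `n`. -/
def Fine {G : Type} [Group G] {V : Type} (Q : SimpleGraph V) (γ : V → V → G) (D n : ℕ) : Prop :=
  Q.Connected ∧ (∀ v, (Q.neighborSet v).ncard ≤ D) ∧ (∀ v w, γ w v = (γ v w)⁻¹) ∧
    (Group.FG G → (cover Q γ).Connected) ∧
    ∀ (p : V × G) (c : (cover Q γ).Walk p p), c.IsCycle → n < c.length

theorem conj_closure (l : ℝ) {z : ℂ} (hz : z ∈ Subring.closure {(l : ℂ)}) :
    (starRingEnd ℂ) z = z := by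
  induction hz using Subring.closure_induction with
  | mem x hx =>
    rw [Set.mem_singleton_iff.1 hx, Complex.conj_ofReal]
  | zero => exact map_zero _
  | one => exact map_one _
  | add x y _ _ hx hy => rw [map_add, hx, hy]
  | neg x _ hx => rw [map_neg, hx]
  | mul x y _ _ hx hy => rw [map_mul, hx, hy]

theorem exists_sq {K L : Type} [Fintype K] [Fintype L] [DecidableEq K] [DecidableEq L] (l : ℝ)
    (A : Matrix K L (MonoidAlgebra ℂ G)) (hA : ∀ i j g, (A i j).coeff g ∈ Subring.closure {(l : ℂ)}) :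
    ∃ (κ : Type) (_ : Fintype κ) (_ : DecidableEq κ) (B : Matrix κ κ (MonoidAlgebra ℂ G)),
      (∀ i j, B i j = 0 ∨ B i j ∈ gens (Set.univ : Set G) {(l : ℂ)}) ∧ Nonempty κ ∧
        kap B = kap A := by
  have h1 : ∀ x : MonoidAlgebra ℂ G, (∀ g, x.coeff g ∈ Subring.closure {(l : ℂ)}) →
      x ∈ Subring.closure (gens (Set.univ : Set G) {(l : ℂ)}) := fun x hx =>
    mem_closure_gens Set.univ (by simp) {(l : ℂ)} x hx
  have h2 : ∀ i j, (A * sta A) i j ∈ Subring.closure (gens (Set.univ : Set G) {(l : ℂ)}) := by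
    intro i j
    rw [Matrix.mul_apply]
    refine sum_mem fun l' _ => mul_mem (h1 _ (hA i l')) (h1 _ fun g => ?_)
    change (st (A j l')).coeff g ∈ _
    rw [st_coeff, conj_closure l (hA j l' g⁻¹)]
    exact hA j l' g⁻¹
  obtain ⟨κ, i1, i2, B, ⟨_, _, _, _, _, _, h3, _, _⟩, hk⟩ :=
    grid_sq (one_gens _ _) (neg_gens _ _) (A * sta A) h2
  refine ⟨κ ⊕ Unit, inferInstance, inferInstance, fromBlocks B 0 0 1, ?_, ⟨Sum.inr ()⟩,
    by rw [kap_stab, hk, kap_mul_sta]⟩
  rintro (i | i) (j | j)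
  · exact h3 i j
  · exact Or.inl rfl
  · exact Or.inl rfl
  · right
    rw [Matrix.fromBlocks_apply₂₂, Subsingleton.elim i j, Matrix.one_apply_eq]
    exact one_gens _ _

open Classical in
theorem fine_cover {D : ℕ} (hD : 4 ≤ D) {l : ℝ} (hl : TreeEig D l) (n : ℕ) {K L : Type}
    [Fintype K] [Fintype L] [DecidableEq K] [DecidableEq L] (A : Matrix K L (MonoidAlgebra ℂ G))
    (hA : ∀ i j g, (A i j).coeff g ∈ Subring.closure {(l : ℂ)}) :
    ∃ (V : Type) (_ : Fintype V) (Q : SimpleGraph V) (γ : V → V → G), Fine Q γ D n ∧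
      mult (cover Q γ) l = kap A := by
  obtain ⟨W, iW, T, f, hT⟩ := exists_min hl
  obtain ⟨v₀, hv₀⟩ := hT.leaf
  obtain ⟨C, hC1, hC2, hC3⟩ := hT.inv v₀
  have main : ∀ (k : ℕ) (s : Fin k → G), ∃ (V : Type) (_ : Fintype V) (_ : Nonempty V)
      (Q : SimpleGraph V) (γ : V → V → G), (∀ v, (Q.neighborSet v).ncard ≤ D) ∧
      (∀ v w, γ w v = (γ v w)⁻¹) ∧
      (∀ (p : V × G) (c : (cover Q γ).Walk p p), c.IsCycle → n < c.length) ∧
      mult (cover Q γ) l = kap A ∧ (∀ v w, Q.Reachable v w) ∧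
      ∀ v w g, ∀ t ∈ Subgroup.closure (Set.range s), (cover Q γ).Reachable (v, g) (w, g * t) := by
    intro k s
    obtain ⟨κ, i1, i2, B, hB, hκ, hk0⟩ := exists_sq l A hA
    obtain ⟨V1, i3, i4, N1, d1, hN1, hne1, hd1, hk1⟩ := exists_volt_d l B hB
    have : Nonempty V1 := hne1 hκ
    obtain ⟨V2, i5, i6, hne2, N2, d2, hN2, hc2, hd2, hk2⟩ := exists_cg_d (l : ℂ) N1 hN1 d1 hd1 s
    obtain ⟨V3, i7, i8, N3, d3, hN3, hc3, hd3, hne3, hg3, hk3⟩ := lower_all_d (l : ℂ) _
      (Fintype.card V2) V2 N2 d2 hN2 hc2 hd2 hne2 fun v => by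
        have := Set.ncard_le_card (nb N2 v)
        rw [Nat.card_eq_fintype_card] at this
        exact this.trans (Nat.le_add_left _ _)
    obtain ⟨V4, i9, i10, N4, d4, hN4, hc4, hd4, hne4, hg4, hg4', hk4⟩ :=
      half_d (l : ℂ) N3 hN3 d3 hd3 hc3 hne3 hg3
    set d5 : V4 ⊕ (Fin (4 * n + 4) × Et N4) → ℤ := Sum.elim d4 (fun _ => 0) with hd5
    have hN5 := vm_lng hN4 n
    have hc5 := cg_lng hN4 hc4 hne4 n
    set e : V4 ⊕ (Fin (4 * n + 4) × Et N4) → ℕ := fun v => (d5 v + 1).toNat with he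
    have hb5 : Bd d5 := hd4.elim
    have he' : (fun v => (e v : ℤ) - 1) = d5 := by
      ext v
      rw [he]
      simp only
      rw [Int.toNat_of_nonneg (by have := (hb5 v).1; omega)]
      ring
    have hM := vm_att T v₀ e hN5
    have hcM := cg_att hT.connected v₀ e hN5 hc5 ⟨Sum.inl hne4.some⟩
    obtain ⟨Q, γ, h1, h2, h3⟩ := exists_cover (att T v₀ e (lng N4 n)) hM
    refine ⟨_, inferInstance, ⟨Sum.inl (Sum.inl hne4.some)⟩, Q, γ, ?_, h1, ?_, ?_, ?_, ?_⟩
    · intro x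
      rw [h3]
      refine deg_att hT.deg hv₀ e (lng N4 n) (fun v => ?_) le_rfl x
      refine le_trans ?_ hD
      rcases v with v | v
      · have g1 := (nb_branch hN4 n v).1
        have g2 := hg4 v
        have g3 := hg4' v
        have g4 := hd4 v
        rw [he]
        change _ + (d4 v + 1).toNat ≤ 4
        by_cases h0 : d4 v = 0
        · rw [h0]
          simp
          omega
        · have := g3 h0
          omega
      · have g1 := nb_lng hN4 n hg4 (Sum.inr v)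
        rw [he]
        change _ + ((0 : ℤ) + 1).toNat ≤ 4
        simp
        omega
    · intro p c hc
      exact girth_long hN4 hT.acyclic h2 hc
    · have hk := kap_att l T v₀ e (lng N4 n) C hC1 hC2 hC3
      rw [he', hd5, kap_lng_d (l : ℂ) hN4 d4 n, hk4, hk3, hk2, hk1, hk0] at hk
      rw [mult_eq Q γ h1, h2, ← hk]
      congr
      exact Subsingleton.elim _ _
    · intro v w
      exact reach_base h2 (hcM.one v w 1)
    · intro v w g t ht
      exact reach_of h1 h2 (hcM v w g t ht)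
  by_cases hG : Group.FG G
  · obtain ⟨S, hS⟩ := (Group.fg_def.1 hG)
    let s : Fin S.card → G := fun i => (S.equivFin.symm i : G)
    have hs : Set.range s = S := by
      ext x
      constructor
      · rintro ⟨i, rfl⟩
        exact (S.equivFin.symm i).2
      · intro hx
        exact ⟨S.equivFin ⟨x, hx⟩, by simp [s]⟩
    obtain ⟨V, i1, hne, Q, γ, h1, h2, h3, h4, h5, h6⟩ := main _ s
    rw [hs, hS] at h6
    refine ⟨V, i1, Q, γ, ⟨⟨h5⟩, h1, h2, fun _ => ⟨fun p q => ?_⟩, h3⟩, h4⟩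
    have := h6 p.1 q.1 p.2 (p.2⁻¹ * q.2) trivial
    rwa [mul_inv_cancel_left] at this
  · obtain ⟨V, i1, hne, Q, γ, h1, h2, h3, h4, h5, h6⟩ := main 0 (fun _ => 1)
    exact ⟨V, i1, Q, γ, ⟨⟨h5⟩, h1, h2, fun h => absurd h hG, h3⟩, h4⟩

/-- the entries of the adjacency matrix of a cover minus `l` -/
theorem mult_mat (l : ℝ) {V : Type} [Fintype V] (Q : SimpleGraph V) (γ : V → V → G)
    (hγ : ∀ v w, γ w v = (γ v w)⁻¹) :
    ∃ (m : ℕ) (A : Matrix (Fin m) (Fin m) (G →₀ ℂ)),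
      (∀ i j g, A i j g ∈ Subring.closure {(l : ℂ)}) ∧ kerDim A = mult (cover Q γ) l := by
  classical
  let e : Fin (Fintype.card V) ≃ V := (Fintype.equivFin V).symm
  refine ⟨Fintype.card V,
    Matrix.of fun i j => ((vmat Q γ - (l : ℂ) • 1 : Matrix V V (MonoidAlgebra ℂ G)) (e i) (e j)).coeff,
    fun i j g => ?_, ?_⟩
  · rw [Matrix.of_apply, Matrix.sub_apply, MonoidAlgebra.coeff_sub, Finsupp.sub_apply]
    refine sub_mem ?_ ?_
    · obtain ⟨z, hz⟩ := vmat_int Q γ (e i) (e j) g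
      rw [hz]
      exact intCast_mem _ z
    · rw [Matrix.smul_apply, Matrix.one_apply]
      by_cases h : e i = e j
      · rw [if_pos h, MonoidAlgebra.one_def, MonoidAlgebra.smul_single, MonoidAlgebra.coeff_single,
          Finsupp.single_apply]
        split_ifs
        · rw [smul_eq_mul, mul_one]
          exact Subring.subset_closure rfl
        · exact zero_mem _
      · rw [if_neg h, smul_zero, MonoidAlgebra.coeff_zero]
        exact zero_mem _
  · rw [mult_eq Q γ hγ, kerDim_kap, ← kap_re e e (vmat Q γ - (l : ℂ) • 1)]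
    rfl

/-- from the field to the ring -/
theorem fine_of_field {D : ℕ} (hD : 4 ≤ D) {l : ℝ} (hl : TreeEig D l) (n : ℕ) {a b : ℕ}
    (A : Matrix (Fin a) (Fin b) (G →₀ ℂ)) (hA : ∀ i j g, A i j g ∈ Subfield.closure {(l : ℂ)}) :
    ∃ (V : Type) (_ : Fintype V) (Q : SimpleGraph V) (γ : V → V → G), Fine Q γ D n ∧
      mult (cover Q γ) l = kerDim A := by
  obtain ⟨A', hA', hk⟩ := clear_den {(l : ℂ)} (ofm A) (fun i j g => hA i j g)
  obtain ⟨V, i, Q, γ, h1, h2⟩ := fine_cover hD hl n A' hA'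
  exact ⟨V, i, Q, γ, h1, by rw [kerDim_kap, h2, hk]⟩

theorem fine_of_val {D : ℕ} (hD : 4 ≤ D) {l : ℝ} (hl : TreeEig D l) (n : ℕ) {v : ℝ}
    (hv : Val (Int.castRingHom ℂ).range G v) :
    ∃ (V : Type) (_ : Fintype V) (Q : SimpleGraph V) (γ : V → V → G), Fine Q γ D n ∧
      mult (cover Q γ) l = v := by
  obtain ⟨a, b, A, hA, hAv⟩ := exists_kerDim hv
  obtain ⟨V, i, Q, γ, h1, h2⟩ := fine_of_field hD hl n A (fun i j g => by
    obtain ⟨z, hz⟩ := hA i j g
    rw [← hz]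
    exact intCast_mem _ z)
  exact ⟨V, i, Q, γ, h1, h2.trans hAv⟩

/-- the equivalence for closed classes of torsion-free groups -/
theorem fine_iff {C : (G : Type) → [Group G] → Prop} (hC : ClosedClass C) {D : ℕ} (hD : 4 ≤ D)
    {l : ℝ} (hl : TreeEig D l) (n : ℕ) :
    (∃ r : ℝ, 0 ≤ r ∧ ∀ (G : Type) [Group G], C G → Group.FG G → ∀ (V : Type) [Fintype V]
      (Q : SimpleGraph V) (γ : V → V → G), Fine Q γ D n → mult (cover Q γ) l ≠ r) →
    (∀ (G : Type) [Group G], C G → ∀ (m n : ℕ) (A : Matrix (Fin m) (Fin n) (G →₀ ℂ)),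
      ∃ z : ℤ, kerDim A = z) := by
  rintro ⟨r, hr, h⟩
  by_contra hno
  obtain ⟨H, _, hH, hv⟩ := all_values hC hno r hr
  obtain ⟨K, hK, a, b, A, hA, hAv⟩ := TH25.AD.fg_val_sub hv
  have hv' : Val (Int.castRingHom ℂ).range K r := by
    refine ⟨a, b, A, fun k i g => ?_, hAv⟩
    obtain ⟨z, hz⟩ := Subring.mem_bot.1 (hA k i g)
    exact ⟨z, hz⟩
  obtain ⟨V, i, Q, γ, hQ, hn⟩ := fine_of_val hD hl n hv'
  exact h K (hC.subgroup K H K.subtype K.subtype_injective hH) hK V Q γ hQ hn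

/-- every nonnegative real number -/
theorem all_real_fine (r : ℝ) (hr : 0 ≤ r) {D : ℕ} (hD : 4 ≤ D) {l : ℝ} (hl : TreeEig D l)
    (n : ℕ) :
    ∃ (G : Type) (_ : Group G), Group.FG G ∧ Group.IsSolvable G ∧
      (∀ g : G, IsOfFinOrder g → g ^ 2 = 1) ∧
      ∃ (V : Type) (_ : Fintype V) (Q : SimpleGraph V) (γ : V → V → G), Fine Q γ D n ∧
        mult (cover Q γ) l = r := by
  obtain ⟨K, iK, h1, h2, h3, h4⟩ := val_fg r hr
  refine ⟨K, iK, h1, h2, ?_, fine_of_val hD hl n h4⟩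
  intro g hg
  obtain ⟨m, hm, hg⟩ := isOfFinOrder_iff_pow_eq_one.1 hg
  exact h3 g m hm hg

/-- the equivalence for bounded torsion -/
theorem gap_fine (C : (G : Type) → [Group G] → Prop)
    (hprod : ∀ (G H : Type) [Group G] [Group H], C G → C H → C (G × H))
    (hfree : ∀ (G : Type) [Group G] (m : ℕ), C G → C (Monoid.Coprod G (FreeGroup (Fin m))))
    {D : ℕ} (hD : 4 ≤ D) {l : ℝ} (hl : TreeEig D l) (n : ℕ)
    (hgap : ∃ a b : ℝ, 0 ≤ a ∧ a < b ∧ ∀ (G : Type) [Group G], C G → ∀ d : ℕ, IsLcm G d →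
      ∀ (V : Type) [Fintype V] (Q : SimpleGraph V) (γ : V → V → G), Fine Q γ D n →
        ¬ (a < (d : ℝ) * mult (cover Q γ) l ∧ (d : ℝ) * mult (cover Q γ) l < b)) :
    ∀ (G : Type) [Group G], C G → ∀ d : ℕ, IsLcm G d →
      ∀ (m n : ℕ) (A : Matrix (Fin m) (Fin n) (G →₀ ℂ)), ∃ z : ℤ, (d : ℝ) * kerDim A = z := by
  obtain ⟨a, b, ha, hab, h⟩ := hgap
  intro G _ hG d hd m' n' A
  have hR : ∀ (G : Type) [Group G], C G → ∀ d : ℕ, IsLcm G d → ∀ v : ℝ,
      Val (Int.castRingHom ℂ).range G v → ∃ z : ℤ, (d : ℝ) * v = z := by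
    intro G _ hG d hd v hv
    refine gap_val C hprod hfree (Int.castRingHom ℂ).range a b ha hab ?_ G hG d hd v hv
    intro H _ hH e he v hv
    obtain ⟨V, i, Q, γ, hQ, rfl⟩ := fine_of_val hD hl n hv
    exact h H hH e he V Q γ hQ
  exact base_change C hprod hfree _ hR ⊤ G hG d hd _
    (val_kerDim A (fun _ _ _ => Subring.mem_top _))

end Pool.Agent.L0h7.TE
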