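import Mathlib

set_option autoImplicit false
set_option linter.unusedSectionVars false

/-! Eigenvalues of finite trees. -/

namespace Pool.Agent.L0h7.TE

/-- `l` is an eigenvalue of a finite forest with degrees at most `D` -/
def TreeEig (D : ℕ) (l : ℝ) : Prop :=
  ∃ (W : Type) (_ : Fintype W) (T : SimpleGraph W) (f : W → ℝ), T.IsAcyclic ∧
    (∀ w, (T.neighborSet w).ncard ≤ D) ∧ (∃ w, f w ≠ 0) ∧
    ∀ w, ∑ᶠ u ∈ T.neighborSet w, f u = l * f w

open Classical in
/-- the eigenvalue equation -/
def Eq' {W : Type} [Fintype W] (T : SimpleGraph W) (l : ℝ) (f : W → ℝ) : Prop :=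
  ∀ w, ∑ u, (if T.Adj w u then f u else 0) = l * f w

theorem eq_iff {W : Type} [Fintype W] (T : SimpleGraph W) (l : ℝ) (f : W → ℝ) :
    (∀ w, ∑ᶠ u ∈ T.neighborSet w, f u = l * f w) ↔ Eq' T l f := by
  classical
  refine forall_congr' fun w => ?_
  rw [finsum_mem_def, finsum_eq_sum_of_fintype]
  have : ∀ u, (T.neighborSet w).indicator f u = if T.Adj w u then f u else 0 := fun u => by
    rw [Set.indicator_apply]
    rfl
  rw [Finset.sum_congr rfl fun u _ => this u]

/-- a smallest example -/
structure MinT (D : ℕ) (l : ℝ) {W : Type} [Fintype W] (T : SimpleGraph W) (f : W → ℝ) : Prop where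
  acyclic : T.IsAcyclic
  deg : ∀ w, (T.neighborSet w).ncard ≤ D
  ne : ∃ w, f w ≠ 0
  eq : Eq' T l f
  min : ∀ (s : Set W) [Fintype s], s ≠ Set.univ → ∀ f' : s → ℝ, Eq' (T.induce s) l f' →
    ∀ w, f' w = 0

theorem exists_min {D : ℕ} {l : ℝ} (h : TreeEig D l) :
    ∃ (W : Type) (_ : Fintype W) (T : SimpleGraph W) (f : W → ℝ), MinT D l T f := by
  classical
  let P : ℕ → Prop := fun n => ∃ (W : Type) (_ : Fintype W) (T : SimpleGraph W) (f : W → ℝ),
    Fintype.card W = n ∧ T.IsAcyclic ∧ (∀ w, (T.neighborSet w).ncard ≤ D) ∧ (∃ w, f w ≠ 0) ∧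
      Eq' T l f
  have hP : ∃ n, P n := by
    obtain ⟨W, i, T, f, h1, h2, h3, h4⟩ := h
    exact ⟨_, W, i, T, f, rfl, h1, h2, h3, (eq_iff T l f).1 h4⟩
  obtain ⟨W, i, T, f, h1, h2, h3, h4, h5⟩ := Nat.find_spec hP
  refine ⟨W, i, T, f, h2, h3, h4, h5, ?_⟩
  intro s _ hs f' hf'
  by_contra hno
  push Not at hno
  have hlt : Fintype.card s < Nat.find hP := by
    rw [← h1]
    obtain ⟨x, hx⟩ := (Set.ne_univ_iff_exists_notMem s).1 hs
    exact Fintype.card_subtype_lt hx
  refine Nat.find_min hP hlt ⟨s, inferInstance, T.induce s, f', rfl, h2.induce s, ?_, hno, hf'⟩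
  intro w
  refine le_trans ?_ (h3 w)
  have : Subtype.val '' (T.induce s).neighborSet w ⊆ T.neighborSet w := by
    rintro _ ⟨u, hu, rfl⟩
    exact hu
  calc ((T.induce s).neighborSet w).ncard = (Subtype.val '' (T.induce s).neighborSet w).ncard :=
        (Set.ncard_image_of_injective _ Subtype.val_injective).symm
    _ ≤ _ := Set.ncard_le_ncard this (Set.toFinite _)

variable {D : ℕ} {l : ℝ} {W : Type} [Fintype W] {T : SimpleGraph W} {f : W → ℝ}

theorem sum_sub {s : Set W} [Fintype s] [DecidableRel T.Adj] [DecidablePred (· ∈ s)]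
    (f : W → ℝ) (w : s)
    (h : ∀ u, u ∉ s → T.Adj w u → f u = 0) :
    ∑ u : s, (if T.Adj w u then f u else 0) = ∑ u, (if T.Adj w u then f u else 0) := by
  have h1 : ∑ u : s, (if T.Adj w u then f u else 0) =
      ∑ u ∈ Finset.univ.filter (· ∈ s), (if T.Adj w u then f u else 0) := by
    rw [← Finset.sum_coe_sort (Finset.univ.filter (· ∈ s))]
    refine Fintype.sum_equiv (Equiv.subtypeEquivRight fun x => by simp) _ _ fun x => rfl
  rw [h1]
  refine Finset.sum_subset (Finset.subset_univ _) fun u _ hu => ?_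
  have hu' : u ∉ s := fun h' => hu (by simpa using h')
  by_cases h2 : T.Adj w u
  · rw [if_pos h2, h u hu' h2]
  · rw [if_neg h2]

theorem MinT.full (h : MinT D l T f) (v : W) : f v ≠ 0 := by
  classical
  intro hv
  have h1 := h.min {w | w ≠ v} (by
    intro h'
    have : v ∈ ({w | w ≠ v} : Set W) := by rw [h']; trivial
    exact this rfl) (fun w => f w) (by
      intro w
      have h2 := sum_sub (T := T) (s := {w | w ≠ v}) f w (by
        intro u hu _
        have : u = v := by
          by_contra h'
          exact hu h'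
        rw [this, hv])
      have h3 := h.eq w
      rw [← h3]
      convert h2 using 3
      exact Iff.rfl)
  obtain ⟨w, hw⟩ := h.ne
  by_cases hwv : w = v
  · rw [hwv] at hw
    exact hw hv
  · exact hw (h1 ⟨w, hwv⟩)

theorem MinT.connected (h : MinT D l T f) : T.Connected := by
  classical
  obtain ⟨v, hv⟩ := h.ne
  have hr : ∀ w, T.Reachable v w := by
    by_contra hno
    push Not at hno
    obtain ⟨w₀, hw₀⟩ := hno
    have h1 := h.min {w | T.Reachable v w} (by
      intro h'
      have : w₀ ∈ ({w | T.Reachable v w} : Set W) := by rw [h']; trivial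
      exact hw₀ this) (fun w => f w) (by
        intro w
        have h2 := sum_sub (T := T) (s := {w | T.Reachable v w}) f w (by
          intro u hu hwu
          exact absurd (w.2.trans hwu.reachable) hu)
        have h3 := h.eq w
        rw [← h3]
        convert h2 using 3
        exact Iff.rfl)
    exact hv (h1 ⟨v, SimpleGraph.Reachable.refl v⟩)
  have : Nonempty W := ⟨v⟩
  exact ⟨fun a b => (hr a).symm.trans (hr b)⟩

theorem MinT.leaf (h : MinT D l T f) : ∃ v, (T.neighborSet v).ncard ≤ 1 := by
  classical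
  obtain ⟨v, hv⟩ := h.ne
  by_cases hn : Nontrivial W
  · have ht : T.IsTree := ⟨h.connected, h.acyclic⟩
    obtain ⟨u, hu⟩ := ht.exists_vert_degree_one_of_nontrivial
    refine ⟨u, ?_⟩
    rw [← SimpleGraph.card_neighborSet_eq_degree] at hu
    rw [Set.ncard_eq_toFinset_card', Set.toFinset_card, hu]
  · refine ⟨v, ?_⟩
    have : T.neighborSet v = ∅ := by
      ext u
      constructor
      · intro hu
        exact absurd ⟨v, u, hu.ne⟩ hn
      · intro hu
        exact absurd hu (Set.notMem_empty _)
    rw [this, Set.ncard_empty]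
    norm_num

/-- the adjacency matrix without the vertex `v` -/
noncomputable def Bm (T : SimpleGraph W) (v : W) : Matrix {w : W // w ≠ v} {w : W // w ≠ v} ℝ := by
  classical
  exact Matrix.of fun u w => if T.Adj u w then 1 else 0

/-- the edges at `v` -/
noncomputable def av (T : SimpleGraph W) (v : W) : {w : W // w ≠ v} → ℝ := by
  classical
  exact fun w => if T.Adj w v then 1 else 0

open Classical in
theorem MinT.inv (h : MinT D l T f) (v : W) : ∃ C : Matrix {w : W // w ≠ v} {w : W // w ≠ v} ℝ,
    (Bm T v - l • 1) * C = 1 ∧ C * (Bm T v - l • 1) = 1 ∧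
      ∑ i, ∑ j, av T v i * C i j * av T v j = -l := by
  have hdet : (Bm T v - l • 1).det ≠ 0 := by
    intro h0
    obtain ⟨y, hy, hy0⟩ := Matrix.exists_mulVec_eq_zero_iff.2 h0
    apply hy
    have hmin := h.min {w | w ≠ v} (by
      intro h'
      have : v ∈ ({w | w ≠ v} : Set W) := by rw [h']; trivial
      exact this rfl) y (by
        intro w
        have h1 := congrFun hy0 w
        rw [Matrix.sub_mulVec, Matrix.smul_mulVec, Matrix.one_mulVec] at h1
        simp only [Pi.sub_apply, Pi.smul_apply, smul_eq_mul, Pi.zero_apply] at h1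
        rw [sub_eq_zero] at h1
        rw [← h1]
        unfold Bm Matrix.mulVec dotProduct
        simp only [Matrix.of_apply, ite_mul, one_mul, zero_mul]
        refine Finset.sum_congr ?_ fun u _ => ?_
        · ext; simp
        · rfl)
    ext w
    exact hmin w
  have hu : IsUnit (Bm T v - l • 1).det := isUnit_iff_ne_zero.2 hdet
  refine ⟨(Bm T v - l • 1)⁻¹, Matrix.mul_nonsing_inv _ hu, Matrix.nonsing_inv_mul _ hu, ?_⟩
  set C := (Bm T v - l • 1)⁻¹ with hC
  have h2 : (Bm T v - l • 1).mulVec (fun w => f w) = fun w => -(f v * av T v w) := by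
    ext w
    rw [Matrix.sub_mulVec, Matrix.smul_mulVec, Matrix.one_mulVec]
    simp only [Pi.sub_apply, Pi.smul_apply, smul_eq_mul]
    have h3 := h.eq w
    rw [← h3]
    have h4 : ∑ u : W, (if T.Adj w u then f u else 0) =
        (if T.Adj w v then f v else 0) + ∑ u : {w : W // w ≠ v}, (if T.Adj w u then f u else 0) := by
      rw [← Finset.add_sum_erase Finset.univ _ (Finset.mem_univ v)]
      congr 1
      rw [← Finset.sum_coe_sort (Finset.univ.erase v)]
      refine Fintype.sum_equiv (Equiv.subtypeEquivRight fun x => by simp) _ _ fun x => rfl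
    rw [h4]
    unfold Bm Matrix.mulVec dotProduct av
    simp only [Matrix.of_apply, ite_mul, one_mul, zero_mul, mul_ite, mul_one, mul_zero]
    split_ifs <;> ring
  have h5 : (fun w : {w : W // w ≠ v} => f w) = C.mulVec fun w => -(f v * av T v w) := by
    rw [← h2, Matrix.mulVec_mulVec, Matrix.nonsing_inv_mul _ hu, Matrix.one_mulVec]
  have h6 : ∑ i, av T v i * f i = l * f v := by
    rw [← h.eq v]
    have h4 : ∑ u : W, (if T.Adj v u then f u else 0) =
        (if T.Adj v v then f v else 0) + ∑ u : {w : W // w ≠ v}, (if T.Adj v u then f u else 0) := by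
      rw [← Finset.add_sum_erase Finset.univ _ (Finset.mem_univ v)]
      congr 1
      rw [← Finset.sum_coe_sort (Finset.univ.erase v)]
      refine Fintype.sum_equiv (Equiv.subtypeEquivRight fun x => by simp) _ _ fun x => rfl
    rw [h4, if_neg (T.loopless.irrefl v), zero_add]
    refine Finset.sum_congr rfl fun u _ => ?_
    unfold av
    simp only [T.adj_comm v u]
    split_ifs <;> simp
  have h7 : ∀ i : {w : W // w ≠ v}, f i = -(f v * ∑ j, C i j * av T v j) := by
    intro i
    have h8 : f i = C.mulVec (fun w => -(f v * av T v w)) i := congrFun h5 i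
    rw [h8]
    unfold Matrix.mulVec dotProduct
    rw [Finset.mul_sum, ← Finset.sum_neg_distrib]
    refine Finset.sum_congr rfl fun j _ => ?_
    ring
  have h8 : f v * (∑ i, ∑ j, av T v i * C i j * av T v j) = f v * (-l) := by
    have h9 : ∑ i, av T v i * f i = -(f v * ∑ i, ∑ j, av T v i * C i j * av T v j) := by
      rw [Finset.mul_sum, ← Finset.sum_neg_distrib]
      refine Finset.sum_congr rfl fun i _ => ?_
      rw [h7 i]
      simp only [mul_assoc]
      rw [← Finset.mul_sum]
      ring
    rw [h6] at h9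
    linarith
  exact mul_left_cancel₀ (h.full v) h8

end Pool.Agent.L0h7.TE
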