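import Pool.Agent.L0h7.TE.Trans
import Pool.Agent.L0h7.TE.Tree

set_option autoImplicit false
set_option linter.unusedSectionVars false

/-! Attaching trees to the vertices. -/

namespace Pool.Agent.L0h7.TE

open Matrix TH57.Thr.Ati Pool.Agent.R719.AT Pool.Agent.R472.Grid Pool.Agent.L0h7.CG

variable {G : Type} [Group G] {V : Type} [Fintype V] [DecidableEq V] {W : Type} [Fintype W]

/-- real numbers in the group ring -/
noncomputable def ri : ℝ →+* MonoidAlgebra ℂ G :=
  (algebraMap ℂ (MonoidAlgebra ℂ G)).comp Complex.ofRealHom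

theorem ri_eq (r : ℝ) : (ri r : MonoidAlgebra ℂ G) = MonoidAlgebra.single 1 (r : ℂ) := rfl

theorem st_ri (r : ℝ) : st (ri r : MonoidAlgebra ℂ G) = ri r := by
  rw [ri_eq, st_single, inv_one, Complex.conj_ofReal]

/-- real matrices as matrices over the group ring -/
noncomputable def rc {K L : Type} (A : Matrix K L ℝ) : Matrix K L (MonoidAlgebra ℂ G) := A.map ri

theorem rc_mul {K L M : Type} [Fintype L] (A : Matrix K L ℝ) (B : Matrix L M ℝ) :
    (rc (A * B) : Matrix K M (MonoidAlgebra ℂ G)) = rc A * rc B := by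
  unfold rc
  exact Matrix.map_mul

theorem rc_one {K : Type} [DecidableEq K] : (rc (1 : Matrix K K ℝ) :
    Matrix K K (MonoidAlgebra ℂ G)) = 1 := by
  unfold rc
  exact Matrix.map_one _ (map_zero _) (map_one _)

theorem rc_sub {K : Type} [DecidableEq K] (A : Matrix K K ℝ) (l : ℝ) :
    (rc (A - l • 1) : Matrix K K (MonoidAlgebra ℂ G)) = rc A - (l : ℂ) • 1 := by
  ext1 i j
  change ri ((A - l • 1) i j) = ri (A i j) - ((l : ℂ) • (1 : Matrix K K (MonoidAlgebra ℂ G))) i j
  rw [Matrix.sub_apply, Matrix.smul_apply, Matrix.smul_apply, map_sub]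
  congr 1
  by_cases h : i = j
  · rw [h, Matrix.one_apply_eq, Matrix.one_apply_eq, ri_eq, MonoidAlgebra.one_def,
      MonoidAlgebra.smul_single]
    simp
  · rw [Matrix.one_apply_ne h, Matrix.one_apply_ne h, smul_zero, smul_zero, map_zero]

/-- the places -/
abbrev Ps (e : V → ℕ) : Type := Σ v : V, Fin (e v)

/-- the new edges at the old vertices -/
noncomputable def Ja (T : SimpleGraph W) (v₀ : W) (e : V → ℕ) :
    Matrix V ({w : W // w ≠ v₀} × Ps e) (MonoidAlgebra ℂ G) :=
  Matrix.of fun v p => if p.2.1 = v then ri (av T v₀ p.1) else 0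

/-- the voltage matrix with trees attached -/
noncomputable def att (T : SimpleGraph W) (v₀ : W) (e : V → ℕ)
    (N : Matrix V V (MonoidAlgebra ℂ G)) :
    Matrix (V ⊕ ({w : W // w ≠ v₀} × Ps e)) (V ⊕ ({w : W // w ≠ v₀} × Ps e))
      (MonoidAlgebra ℂ G) :=
  fromBlocks N (Ja T v₀ e) (sta (Ja T v₀ e)) (blockDiagonal fun _ : Ps e => rc (Bm T v₀))

theorem sum_ps (e : V → ℕ) (v : V) (x : MonoidAlgebra ℂ G) :
    ∑ y : Ps e, (if y.1 = v then x else 0) = (e v) • x := by
  rw [Fintype.sum_sigma]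
  rw [Finset.sum_eq_single v]
  · simp
  · intro b _ hb
    simp [hb]
  · intro h
    exact absurd (Finset.mem_univ _) h

open Classical in
theorem kap_att (l : ℝ) (T : SimpleGraph W) (v₀ : W) (e : V → ℕ)
    (N : Matrix V V (MonoidAlgebra ℂ G)) (C : Matrix {w : W // w ≠ v₀} {w : W // w ≠ v₀} ℝ)
    (h1 : (Bm T v₀ - l • 1) * C = 1) (h2 : C * (Bm T v₀ - l • 1) = 1)
    (h3 : ∑ i, ∑ j, av T v₀ i * C i j * av T v₀ j = -l) :
    kap (att T v₀ e N - (l : ℂ) • 1) = kap (N + dg (l : ℂ) (fun v => (e v : ℤ) - 1)) := by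
  have e1 : att T v₀ e N - (l : ℂ) • 1 = fromBlocks (N - (l : ℂ) • 1) (Ja T v₀ e)
      (sta (Ja T v₀ e)) (blockDiagonal fun _ : Ps e => rc (Bm T v₀ - l • 1)) := by
    unfold att
    have h4 : (fun _ : Ps e => (rc (Bm T v₀ - l • 1) :
        Matrix _ _ (MonoidAlgebra ℂ G))) = (fun _ : Ps e => rc (Bm T v₀)) -
        (fun _ : Ps e => (l : ℂ) • (1 : Matrix {w : W // w ≠ v₀} {w : W // w ≠ v₀}
          (MonoidAlgebra ℂ G))) := by
      ext1 y
      exact rc_sub _ _
    have h5 : (fun _ : Ps e => (l : ℂ) • (1 : Matrix {w : W // w ≠ v₀} {w : W // w ≠ v₀}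
          (MonoidAlgebra ℂ G))) = (l : ℂ) • (1 : Ps e → Matrix {w : W // w ≠ v₀} {w : W // w ≠ v₀}
          (MonoidAlgebra ℂ G)) := rfl
    rw [h4, blockDiagonal_sub, h5, blockDiagonal_smul, blockDiagonal_one]
    ext1 i j
    rcases i with i | i <;> rcases j with j | j
    · simp [Matrix.one_apply]
    · simp
    · simp
    · simp [Matrix.one_apply]
  have e2 : (blockDiagonal fun _ : Ps e => (rc (Bm T v₀ - l • 1) :
      Matrix _ _ (MonoidAlgebra ℂ G))) * (blockDiagonal fun _ : Ps e => rc C) = 1 := by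
    rw [← blockDiagonal_mul, ← blockDiagonal_one]
    congr 1
    ext1 y
    exact (rc_mul (G := G) (Bm T v₀ - l • 1) C).symm.trans (by rw [h1]; exact rc_one)
  have e3 : (blockDiagonal fun _ : Ps e => rc C) * (blockDiagonal fun _ : Ps e =>
      (rc (Bm T v₀ - l • 1) : Matrix _ _ (MonoidAlgebra ℂ G))) = 1 := by
    rw [← blockDiagonal_mul, ← blockDiagonal_one]
    congr 1
    ext1 y
    exact (rc_mul (G := G) C (Bm T v₀ - l • 1)).symm.trans (by rw [h2]; exact rc_one)
  rw [e1, kap_schur _ _ _ e2 e3]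
  congr 1
  have e4 : (Ja T v₀ e : Matrix V ({w : W // w ≠ v₀} × Ps e) (MonoidAlgebra ℂ G)) *
      (blockDiagonal fun _ : Ps e => (rc C : Matrix _ _ (MonoidAlgebra ℂ G))) *
      sta (Ja T v₀ e : Matrix V ({w : W // w ≠ v₀} × Ps e) (MonoidAlgebra ℂ G)) =
      Matrix.diagonal fun v => (e v) • ri (-l) := by
    have e5 : ∀ (v : V) (k : {w : W // w ≠ v₀}) (y : Ps e),
        ((Ja T v₀ e : Matrix V ({w : W // w ≠ v₀} × Ps e) (MonoidAlgebra ℂ G)) *
          (blockDiagonal fun _ : Ps e =>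
          (rc C : Matrix _ _ (MonoidAlgebra ℂ G)))) v (k, y) =
        if y.1 = v then ri (∑ k', av T v₀ k' * C k' k) else 0 := by
      intro v k y
      rw [Matrix.mul_apply, Fintype.sum_prod_type_right, Finset.sum_eq_single y]
      · by_cases hy : y.1 = v
        · rw [if_pos hy, map_sum]
          refine Finset.sum_congr rfl fun k' _ => ?_
          rw [blockDiagonal_apply, if_pos rfl]
          change (if y.1 = v then ri (av T v₀ k') else 0) * ri (C k' k) = _
          rw [if_pos hy, map_mul]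
        · rw [if_neg hy]
          refine Finset.sum_eq_zero fun k' _ => ?_
          change (if y.1 = v then ri (av T v₀ k') else 0) * _ = 0
          rw [if_neg hy, zero_mul]
      · intro y' _ hy'
        refine Finset.sum_eq_zero fun k' _ => ?_
        rw [blockDiagonal_apply, if_neg hy', mul_zero]
      · intro h'
        exact absurd (Finset.mem_univ _) h'
    ext1 v w
    rw [Matrix.mul_apply, Fintype.sum_prod_type_right]
    have e6 : ∀ y : Ps e, ∑ k : {w : W // w ≠ v₀},
        ((Ja T v₀ e : Matrix V ({w : W // w ≠ v₀} × Ps e) (MonoidAlgebra ℂ G)) *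
          (blockDiagonal fun _ : Ps e =>
          (rc C : Matrix _ _ (MonoidAlgebra ℂ G)))) v (k, y) *
          sta (Ja T v₀ e : Matrix V ({w : W // w ≠ v₀} × Ps e) (MonoidAlgebra ℂ G)) (k, y) w =
        if y.1 = v then (if v = w then ri (-l) else 0) else 0 := by
      intro y
      by_cases hy : y.1 = v
      · rw [if_pos hy]
        by_cases hvw : v = w
        · rw [if_pos hvw]
          rw [← h3, Finset.sum_comm, map_sum]
          refine Finset.sum_congr rfl fun k _ => ?_
          rw [e5, if_pos hy]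
          change _ * st (if y.1 = w then ri (av T v₀ k) else 0) = _
          rw [if_pos (hy.trans hvw), st_ri, ← map_mul, Finset.sum_mul]
        · rw [if_neg hvw]
          refine Finset.sum_eq_zero fun k _ => ?_
          change _ * st (if y.1 = w then ri (av T v₀ k) else 0) = _
          rw [if_neg (fun h => hvw (hy.symm.trans h)), st_zero, mul_zero]
      · rw [if_neg hy]
        refine Finset.sum_eq_zero fun k _ => ?_
        rw [e5, if_neg hy, zero_mul]
    rw [Finset.sum_congr rfl fun y _ => e6 y, sum_ps]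
    by_cases hvw : v = w
    · rw [if_pos hvw, hvw, Matrix.diagonal_apply_eq]
    · rw [if_neg hvw, Matrix.diagonal_apply_ne _ hvw, smul_zero]
  rw [e4]
  ext1 v w
  rw [Matrix.sub_apply, Matrix.sub_apply, Matrix.add_apply, Matrix.smul_apply]
  unfold dg
  by_cases hvw : v = w
  · rw [hvw, Matrix.one_apply_eq, Matrix.diagonal_apply_eq, Matrix.diagonal_apply_eq, ri_eq,
      MonoidAlgebra.one_def, MonoidAlgebra.smul_single, MonoidAlgebra.smul_single, sub_sub,
      ← MonoidAlgebra.single_add, sub_eq_add_neg, ← MonoidAlgebra.single_neg]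
    congr 2
    simp
    ring
  · rw [Matrix.one_apply_ne hvw, Matrix.diagonal_apply_ne _ hvw, Matrix.diagonal_apply_ne _ hvw,
      smul_zero, sub_zero, sub_zero, add_zero]

theorem mo_ri_av (T : SimpleGraph W) (v₀ : W) (k : {w : W // w ≠ v₀}) :
    Mo (ri (av T v₀ k) : MonoidAlgebra ℂ G) := by
  classical
  unfold av
  split_ifs
  · rw [map_one]
    exact Mo.one
  · rw [map_zero]
    exact Mo.zero

theorem vm_att (T : SimpleGraph W) (v₀ : W) (e : V → ℕ) {N : Matrix V V (MonoidAlgebra ℂ G)}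
    (hN : Vm N) : Vm (att T v₀ e N) := by
  classical
  have hJ : ∀ v p, Mo ((Ja T v₀ e : Matrix _ _ (MonoidAlgebra ℂ G)) v p) := by
    intro v p
    change Mo (if p.2.1 = v then ri (av T v₀ p.1) else 0)
    split_ifs
    · exact mo_ri_av T v₀ p.1
    · exact Mo.zero
  have hB : ∀ k l : {w : W // w ≠ v₀}, Bm T v₀ k l = if T.Adj k l then 1 else 0 := by
    intro k l
    unfold Bm
    rw [Matrix.of_apply]
  refine ⟨?_, ?_, symm_of_sta ?_⟩
  · rintro (v | ⟨k, y⟩)
    · exact hN.irr v
    · change blockDiagonal (fun _ : Ps e => rc (Bm T v₀)) (k, y) (k, y) = 0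
      rw [blockDiagonal_apply, if_pos rfl]
      change ri (Bm T v₀ k k) = 0
      rw [hB, if_neg (T.loopless.irrefl _), map_zero]
  · rintro (v | ⟨k, y⟩) (w | ⟨k', y'⟩)
    · exact hN.mo v w
    · exact hJ v _
    · exact Mo_st (hJ w _)
    · change Mo (blockDiagonal (fun _ : Ps e => rc (Bm T v₀)) (k, y) (k', y'))
      rw [blockDiagonal_apply]
      split_ifs
      · change Mo (ri (Bm T v₀ k k'))
        rw [hB]
        split_ifs
        · rw [map_one]
          exact Mo.one
        · rw [map_zero]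
          exact Mo.zero
      · exact Mo.zero
  · unfold att
    rw [sta_fromBlocks, sta_sta, vm_sta hN]
    congr 1
    ext1 p q
    obtain ⟨k, y⟩ := p
    obtain ⟨k', y'⟩ := q
    change st (blockDiagonal (fun _ : Ps e => rc (Bm T v₀)) (k', y') (k, y)) = _
    rw [blockDiagonal_apply, blockDiagonal_apply]
    by_cases h : y' = y
    · rw [if_pos h, if_pos h.symm]
      change st (ri (Bm T v₀ k' k)) = ri (Bm T v₀ k k')
      rw [st_ri, hB, hB, T.adj_comm]
    · rw [if_neg h, if_neg (Ne.symm h), st_zero]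

open Classical in
/-- the vertices of an attached tree -/
noncomputable def pos (v₀ : W) {e : V → ℕ} (y : Ps e) (u : W) :
    V ⊕ ({w : W // w ≠ v₀} × Ps e) :=
  if h : u = v₀ then Sum.inl y.1 else Sum.inr (⟨u, h⟩, y)

theorem pos_adj (T : SimpleGraph W) (v₀ : W) {e : V → ℕ} (N : Matrix V V (MonoidAlgebra ℂ G))
    (y : Ps e) {u w : W} (h : T.Adj u w) : att T v₀ e N (pos v₀ y u) (pos v₀ y w) = 1 := by
  classical
  unfold pos
  by_cases h1 : u = v₀
  · by_cases h2 : w = v₀
    · rw [h1, h2] at h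
      exact absurd rfl h.ne
    · rw [dif_pos h1, dif_neg h2]
      change (if y.1 = y.1 then ri (av T v₀ ⟨w, h2⟩) else 0) = 1
      rw [if_pos rfl]
      have h4 : T.Adj w v₀ := h1 ▸ h.symm
      unfold av
      rw [if_pos h4, map_one]
  · by_cases h2 : w = v₀
    · rw [dif_neg h1, dif_pos h2]
      change st (if y.1 = y.1 then ri (av T v₀ ⟨u, h1⟩) else 0) = 1
      rw [if_pos rfl]
      have h4 : T.Adj u v₀ := h2 ▸ h
      unfold av
      rw [if_pos h4, map_one, st_one]
    · rw [dif_neg h1, dif_neg h2]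
      change blockDiagonal (fun _ : Ps e => rc (Bm T v₀)) (⟨u, h1⟩, y) (⟨w, h2⟩, y) = 1
      rw [blockDiagonal_apply, if_pos rfl]
      change ri (Bm T v₀ ⟨u, h1⟩ ⟨w, h2⟩) = 1
      unfold Bm
      rw [Matrix.of_apply, if_pos h, map_one]

theorem cg_att {T : SimpleGraph W} (hT : T.Connected) (v₀ : W) (e : V → ℕ)
    {N : Matrix V V (MonoidAlgebra ℂ G)} (hN : Vm N) {S : Subgroup G} (hc : Cg N S)
    (hne : Nonempty V) : Cg (att T v₀ e N) S := by
  classical
  have hvm := vm_att T v₀ e hN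
  have h1 : ∀ (y : Ps e) (g : G) (u w : W), T.Reachable u w →
      Jg (att T v₀ e N) (pos v₀ y u, g) (pos v₀ y w, g) := by
    rintro y g u w ⟨p⟩
    induction p with
    | nil => exact Jg.refl _
    | cons h _ ih => exact (Jg.one g (pos_adj T v₀ N y h)).trans ih
  have h6 : ∀ p q : V × G, Jg N p q → Jg (att T v₀ e N) (Sum.inl p.1, p.2) (Sum.inl q.1, q.2) := by
    intro p q hpq
    unfold Jg at hpq
    induction hpq with
    | refl => exact Jg.refl _
    | tail _ h ih =>
      obtain ⟨s, ha, hb⟩ := h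
      refine ih.trans ?_
      rw [hb]
      exact Jg.of _ ha
  refine cg_of hvm (Sum.inl hne.some) ?_ fun g t ht => h6 _ _ (hc _ _ g t ht)
  rintro (v | ⟨k, y⟩) g
  · exact h6 _ _ (hc.one _ v g)
  · refine (h6 _ _ (hc.one _ y.1 g)).trans ?_
    have h2 := h1 y g v₀ k (hT v₀ k)
    have e1 : pos v₀ y v₀ = Sum.inl y.1 := by
      unfold pos
      rw [dif_pos rfl]
    have e2 : pos v₀ y (k : W) = Sum.inr (k, y) := by
      unfold pos
      rw [dif_neg k.2]
    rwa [e1, e2] at h2

theorem nb_att_tree (T : SimpleGraph W) (v₀ : W) (e : V → ℕ) (N : Matrix V V (MonoidAlgebra ℂ G))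
    (k : {w : W // w ≠ v₀}) (y : Ps e) :
    nb (att T v₀ e N) (Sum.inr (k, y)) ⊆ pos v₀ y '' T.neighborSet k := by
  classical
  rintro (v | ⟨k', y'⟩) hw
  · have h1 : st (if y.1 = v then ri (av T v₀ k) else 0 : MonoidAlgebra ℂ G) ≠ 0 := hw
    rw [st_ne] at h1
    by_cases h2 : y.1 = v
    · rw [if_pos h2] at h1
      unfold av at h1
      by_cases h3 : T.Adj k v₀
      · refine ⟨v₀, h3, ?_⟩
        unfold pos
        rw [dif_pos rfl, h2]
      · rw [if_neg h3, map_zero] at h1
        exact absurd rfl h1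
    · rw [if_neg h2] at h1
      exact absurd rfl h1
  · have h1 : blockDiagonal (fun _ : Ps e => (rc (Bm T v₀) : Matrix _ _ (MonoidAlgebra ℂ G)))
      (k, y) (k', y') ≠ 0 := hw
    rw [blockDiagonal_apply] at h1
    by_cases h2 : y = y'
    · rw [if_pos h2] at h1
      have h4 : ri (Bm T v₀ k k') ≠ (0 : MonoidAlgebra ℂ G) := h1
      unfold Bm at h4
      rw [Matrix.of_apply] at h4
      by_cases h3 : T.Adj k k'
      · refine ⟨k', h3, ?_⟩
        unfold pos
        rw [dif_neg k'.2, h2]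
      · rw [if_neg h3, map_zero] at h4
        exact absurd rfl h4
    · rw [if_neg h2] at h1
      exact absurd rfl h1

theorem nb_att_old (T : SimpleGraph W) (v₀ : W) (e : V → ℕ) (N : Matrix V V (MonoidAlgebra ℂ G))
    (v : V) : nb (att T v₀ e N) (Sum.inl v) ⊆ Sum.inl '' nb N v ∪
      (fun p : W × Fin (e v) => pos v₀ (⟨v, p.2⟩ : Ps e) p.1) ''
        (T.neighborSet v₀ ×ˢ (Set.univ : Set (Fin (e v)))) := by
  classical
  rintro (w | ⟨k, ⟨v', c⟩⟩) hw
  · exact Or.inl ⟨w, hw, rfl⟩
  · right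
    have h1 : (if v' = v then ri (av T v₀ k) else 0 : MonoidAlgebra ℂ G) ≠ 0 := hw
    by_cases h2 : v' = v
    · subst h2
      rw [if_pos rfl] at h1
      unfold av at h1
      by_cases h3 : T.Adj k v₀
      · refine ⟨(k, c), ⟨h3.symm, trivial⟩, ?_⟩
        change pos v₀ (⟨v', c⟩ : Ps e) (k : W) = _
        unfold pos
        rw [dif_neg k.2]
      · rw [if_neg h3, map_zero] at h1
        exact absurd rfl h1
    · rw [if_neg h2] at h1
      exact absurd rfl h1

theorem deg_att {T : SimpleGraph W} {v₀ : W} {D : ℕ} (hD : ∀ w, (T.neighborSet w).ncard ≤ D)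
    (h0 : (T.neighborSet v₀).ncard ≤ 1) (e : V → ℕ) (N : Matrix V V (MonoidAlgebra ℂ G)) {M : ℕ}
    (hM : ∀ v, (nb N v).ncard + e v ≤ M) (hDM : D ≤ M)
    (x : V ⊕ ({w : W // w ≠ v₀} × Ps e)) : (nb (att T v₀ e N) x).ncard ≤ M := by
  rcases x with v | ⟨k, y⟩
  · refine (Set.ncard_le_ncard (nb_att_old T v₀ e N v) (Set.toFinite _)).trans ?_
    refine (Set.ncard_union_le _ _).trans ?_
    refine le_trans (Nat.add_le_add (Set.ncard_image_le (Set.toFinite _))
      (Set.ncard_image_le (Set.toFinite _))) ?_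
    rw [Set.ncard_prod, Set.ncard_univ, Nat.card_fin]
    refine le_trans (Nat.add_le_add_left ?_ _) (hM v)
    calc (T.neighborSet v₀).ncard * e v ≤ 1 * e v := Nat.mul_le_mul_right _ h0
      _ = e v := one_mul _
  · refine (Set.ncard_le_ncard (nb_att_tree T v₀ e N k y) (Set.toFinite _)).trans ?_
    exact ((Set.ncard_image_le (Set.toFinite _)).trans (hD k)).trans hDM

end Pool.Agent.L0h7.TE
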