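import Pool.Agent.L0h7.CG.App2

set_option autoImplicit false
set_option linter.unusedSectionVars false

/-! Voltage matrices with a diagonal part. -/

namespace Pool.Agent.L0h7.TE

open Matrix TH57.Thr.Ati Pool.Agent.R719.AT Pool.Agent.R472.Grid Pool.Agent.L0h7.CG

variable {G : Type} [Group G] {V W : Type} [Fintype V] [DecidableEq V] [Fintype W] [DecidableEq W]

/-- the diagonal part -/
noncomputable def dg (l : ℂ) (d : V → ℤ) : Matrix V V (MonoidAlgebra ℂ G) :=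
  Matrix.diagonal fun v => MonoidAlgebra.single 1 (l * d v)

theorem dg_sum (l : ℂ) (d : V → ℤ) (e : W → ℤ) :
    (dg l (Sum.elim d e) : Matrix (V ⊕ W) (V ⊕ W) (MonoidAlgebra ℂ G)) =
      fromBlocks (dg l d) 0 0 (dg l e) := by
  unfold dg
  rw [fromBlocks_diagonal]
  congr 1
  ext1 v
  rcases v with v | v <;> rfl

theorem dg_zero (l : ℂ) : (dg l (fun _ => 0) : Matrix V V (MonoidAlgebra ℂ G)) = 0 := by
  unfold dg
  simp

theorem dg_one (l : ℂ) : (dg l (fun _ => 1) : Matrix V V (MonoidAlgebra ℂ G)) = l • 1 := by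
  unfold dg
  ext1 v w
  by_cases h : v = w
  · rw [h, Matrix.diagonal_apply_eq, Matrix.smul_apply, Matrix.one_apply_eq, Int.cast_one, mul_one,
      MonoidAlgebra.one_def, MonoidAlgebra.smul_single, smul_eq_mul, mul_one]
  · rw [Matrix.diagonal_apply_ne _ h, Matrix.smul_apply, Matrix.one_apply_ne h, smul_zero]

theorem dg_neg_one (l : ℂ) : (dg l (fun _ => -1) : Matrix V V (MonoidAlgebra ℂ G)) = -(l • 1) := by
  unfold dg
  ext1 v w
  by_cases h : v = w
  · rw [h, Matrix.diagonal_apply_eq, Matrix.neg_apply, Matrix.smul_apply, Matrix.one_apply_eq,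
      Int.cast_neg, Int.cast_one, mul_neg, mul_one, MonoidAlgebra.one_def,
      MonoidAlgebra.smul_single, smul_eq_mul, mul_one, MonoidAlgebra.single_neg]
  · rw [Matrix.diagonal_apply_ne _ h, Matrix.neg_apply, Matrix.smul_apply, Matrix.one_apply_ne h,
      smul_zero, neg_zero]

theorem sta_dg (l : ℝ) (d : V → ℤ) :
    sta (dg (l : ℂ) d : Matrix V V (MonoidAlgebra ℂ G)) = dg (l : ℂ) d := by
  ext1 v w
  change st (dg (l : ℂ) d w v) = _
  unfold dg
  by_cases h : v = w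
  · rw [h, Matrix.diagonal_apply_eq, st_single, inv_one]
    simp
  · rw [Matrix.diagonal_apply_ne _ h, Matrix.diagonal_apply_ne _ (Ne.symm h), st_zero]

theorem dg_add_fromBlocks (l : ℂ) (d : V → ℤ) (P : Matrix V V (MonoidAlgebra ℂ G))
    (Q : Matrix V W (MonoidAlgebra ℂ G)) (R : Matrix W V (MonoidAlgebra ℂ G))
    (S : Matrix W W (MonoidAlgebra ℂ G)) :
    fromBlocks P Q R S + dg l (Sum.elim d (fun _ => 0)) = fromBlocks (P + dg l d) Q R S := by
  rw [dg_sum, dg_zero, fromBlocks_add, add_zero, add_zero, add_zero]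

theorem kap_dbl_d (l : ℂ) (d : V → ℤ) (X₁ X₂ X₃ X₄ : Matrix V V (MonoidAlgebra ℂ G)) :
    kap (dbl X₁ X₂ X₃ X₄ + dg l (Sum.elim d (fun _ => 0))) =
      kap (X₁ + X₂ + X₃ + X₄ + dg l d) := by
  have h : dbl X₁ X₂ X₃ X₄ + dg l (Sum.elim d (fun _ => 0)) = dbl (X₁ + dg l d) X₂ X₃ X₄ :=
    dg_add_fromBlocks l d _ _ _ _
  rw [h, kap_dbl]
  congr 1
  abel

theorem kap_sdb_d (l : ℂ) (d : V → ℤ) (X₁ X₂ X₃ X₄ : Matrix V V (MonoidAlgebra ℂ G)) :
    kap (sdb X₁ X₂ X₃ X₄ + dg l (Sum.elim d (fun _ => 0))) =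
      kap (X₁ + dg l d + X₄ - X₂ - X₃) := by
  have h : sdb X₁ X₂ X₃ X₄ + dg l (Sum.elim d (fun _ => 0)) = sdb (X₁ + dg l d) X₂ X₃ X₄ :=
    dg_add_fromBlocks l d _ _ _ _
  rw [h, kap_sdb]

theorem sta_neg {K L : Type} (A : Matrix K L (MonoidAlgebra ℂ G)) : sta (-A) = -sta A := by
  have := sta_sub (0 : Matrix K L (MonoidAlgebra ℂ G)) A
  rw [zero_sub, sta_zero, zero_sub] at this
  exact this

theorem sta_add {K L : Type} (A B : Matrix K L (MonoidAlgebra ℂ G)) :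
    sta (A + B) = sta A + sta B := by
  have := sta_sub A (-B)
  rw [sta_neg, sub_neg_eq_add, sub_neg_eq_add] at this
  exact this

theorem sta_smul {K L : Type} (l : ℝ) (A : Matrix K L (MonoidAlgebra ℂ G)) :
    sta ((l : ℂ) • A) = (l : ℂ) • sta A := by
  ext i j g
  change (st (((l : ℂ) • A) j i)).coeff g = _
  rw [st_coeff, Matrix.smul_apply, MonoidAlgebra.coeff_smul, Finsupp.smul_apply, Matrix.smul_apply,
    MonoidAlgebra.coeff_smul, Finsupp.smul_apply]
  change _ = (l : ℂ) • (st (A j i)).coeff g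
  rw [st_coeff, smul_eq_mul, smul_eq_mul, map_mul, Complex.conj_ofReal]

end Pool.Agent.L0h7.TE
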