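import Pool.Agent.L0h7.TE.Att

set_option autoImplicit false
set_option linter.unusedSectionVars false

/-! The girth of the covers. -/

namespace Pool.Agent.L0h7.TE

open Matrix TH57.Thr.Ati Pool.Agent.R719.AT Pool.Agent.R472.Grid Pool.Agent.L0h7.CG

variable {G : Type} [Group G] {V : Type} [Fintype V] [DecidableEq V] {W : Type} [Fintype W]

theorem cov_adj {Q : SimpleGraph V} {γ : V → V → G} {M : Matrix V V (MonoidAlgebra ℂ G)}
    (h2 : vmat Q γ = M) {p q : V × G} (h : (cover Q γ).Adj p q) :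
    q.1 ∈ nb M p.1 ∧ q.2 = p.2 * γ p.1 q.1 := by
  classical
  refine ⟨?_, h.2.1.symm⟩
  change M p.1 q.1 ≠ 0
  rw [← h2]
  unfold vmat
  rw [Matrix.of_apply, if_pos h.1]
  intro h0
  have := congrArg (fun x => MonoidAlgebra.coeff x (γ p.1 q.1)) h0
  simp [MonoidAlgebra.coeff_single] at this

theorem cov_adj_one {Q : SimpleGraph V} {γ : V → V → G} {M : Matrix V V (MonoidAlgebra ℂ G)}
    (h2 : vmat Q γ = M) {p q : V × G} (h : (cover Q γ).Adj p q) (h1 : M p.1 q.1 = 1) :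
    q.2 = p.2 := by
  have h3 := adj_of h2 (h1.trans MonoidAlgebra.one_def)
  rw [(cov_adj h2 h).2, h3.2, mul_one]

section

variable {T : SimpleGraph W} {v₀ : W} {e : V → ℕ} {N : Matrix V V (MonoidAlgebra ℂ G)}
  {Q : SimpleGraph (V ⊕ ({w : W // w ≠ v₀} × Ps e))}
  {γ : (V ⊕ ({w : W // w ≠ v₀} × Ps e)) → (V ⊕ ({w : W // w ≠ v₀} × Ps e)) → G}

theorem pos_ne (y : Ps e) (k : {w : W // w ≠ v₀}) : pos v₀ y (k : W) = Sum.inr (k, y) := by
  unfold pos
  rw [dif_neg k.2]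

theorem pos_eq (y : Ps e) : pos v₀ y v₀ = Sum.inl y.1 := by
  unfold pos
  rw [dif_pos rfl]

open Classical in
/-- neighbours of tree vertices -/
theorem tree_nbr (h2 : vmat Q γ = att T v₀ e N) {k : {w : W // w ≠ v₀}} {y : Ps e} {g : G}
    {q : (V ⊕ ({w : W // w ≠ v₀} × Ps e)) × G}
    (h : (cover Q γ).Adj (Sum.inr (k, y), g) q) :
    ∃ u, T.Adj k u ∧ q = (pos v₀ y u, g) := by
  obtain ⟨u, hu, hq⟩ := nb_att_tree T v₀ e N k y (cov_adj h2 h).1
  have h3 : att T v₀ e N (Sum.inr (k, y)) q.1 = 1 := by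
    rw [← hq, ← pos_ne y k]
    exact pos_adj T v₀ N y hu
  have h4 : q.2 = g := cov_adj_one (p := (Sum.inr (k, y), g)) h2 h h3
  exact ⟨u, hu, Prod.ext hq.symm h4⟩

/-- the side of the removed edge -/
def side (T : SimpleGraph W) (v₀ : W) {e : V → ℕ} (k : {w : W // w ≠ v₀}) (y : Ps e) (g : G)
    (u : W) : (V ⊕ ({w : W // w ≠ v₀} × Ps e)) × G → Prop
  | (Sum.inl _, _) => (T.deleteEdges {s((k : W), u)}).Reachable k v₀
  | (Sum.inr (k', y'), g') => (y' = y ∧ g' = g ∧ (T.deleteEdges {s((k : W), u)}).Reachable k k') ∨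
      (¬ (y' = y ∧ g' = g) ∧ (T.deleteEdges {s((k : W), u)}).Reachable k v₀)

theorem side_pos (k : {w : W // w ≠ v₀}) (y y' : Ps e) (g g' : G) (u u' : W) :
    side T v₀ k y g u (pos v₀ y' u', g') ↔
      ((y' = y ∧ g' = g ∧ (T.deleteEdges {s((k : W), u)}).Reachable k u') ∨
      (¬ (y' = y ∧ g' = g) ∧ (T.deleteEdges {s((k : W), u)}).Reachable k v₀)) := by
  by_cases h : u' = v₀
  · subst h
    rw [pos_eq]
    change (T.deleteEdges {s((k : W), u)}).Reachable k u' ↔ _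
    by_cases h1 : y' = y ∧ g' = g
    · constructor
      · intro h2
        exact Or.inl ⟨h1.1, h1.2, h2⟩
      · rintro (⟨_, _, h2⟩ | ⟨_, h2⟩) <;> exact h2
    · constructor
      · intro h2
        exact Or.inr ⟨h1, h2⟩
      · rintro (⟨_, _, h2⟩ | ⟨_, h2⟩) <;> exact h2
  · have := pos_ne (v₀ := v₀) y' ⟨u', h⟩
    change pos v₀ y' u' = _ at this
    rw [this]
    exact Iff.rfl

theorem side_adj (h2 : vmat Q γ = att T v₀ e N) (k : {w : W // w ≠ v₀}) (y : Ps e) (g : G) (u : W)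
    (p q : (V ⊕ ({w : W // w ≠ v₀} × Ps e)) × G)
    (h : ((cover Q γ).deleteEdges {s((Sum.inr (k, y), g), (pos v₀ y u, g))}).Adj p q)
    (hp : ∃ k' y', p.1 = Sum.inr (k', y')) :
    side T v₀ k y g u p ↔ side T v₀ k y g u q := by
  obtain ⟨x, g'⟩ := p
  · obtain ⟨k', y', hx⟩ := hp
    change x = _ at hx
    subst hx
    rw [SimpleGraph.deleteEdges_adj] at h
    obtain ⟨u', hu', rfl⟩ := tree_nbr h2 h.1
    have h3 := side_pos (T := T) k y y' g g' u (k' : W)
    rw [pos_ne] at h3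
    rw [h3, side_pos]
    by_cases h4 : y' = y ∧ g' = g
    · obtain ⟨rfl, rfl⟩ := h4
      have h5 : (T.deleteEdges {s((k : W), u)}).Adj k' u' := by
        rw [SimpleGraph.deleteEdges_adj]
        refine ⟨hu', fun h6 => h.2 ?_⟩
        rw [Set.mem_singleton_iff] at h6 ⊢
        rcases Sym2.eq_iff.1 h6 with ⟨a1, a2⟩ | ⟨a1, a2⟩
        · rw [a2, Subtype.ext a1]
        · rw [a2, Sym2.eq_swap, pos_ne, ← a1, pos_ne]
      constructor
      · rintro (⟨_, _, h6⟩ | ⟨h6, _⟩)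
        · exact Or.inl ⟨rfl, rfl, h6.trans h5.reachable⟩
        · exact absurd ⟨rfl, rfl⟩ h6
      · rintro (⟨_, _, h6⟩ | ⟨h6, _⟩)
        · exact Or.inl ⟨rfl, rfl, h6.trans h5.symm.reachable⟩
        · exact absurd ⟨rfl, rfl⟩ h6
    · constructor
      · rintro (⟨h6, h7, _⟩ | h6)
        · exact absurd ⟨h6, h7⟩ h4
        · exact Or.inr h6
      · rintro (⟨h6, h7, _⟩ | h6)
        · exact absurd ⟨h6, h7⟩ h4
        · exact Or.inr h6

/-- edges of the trees are bridges -/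
theorem tree_bridge (hT : T.IsAcyclic) (h2 : vmat Q γ = att T v₀ e N) (k : {w : W // w ≠ v₀})
    (y : Ps e) (g : G) (u : W) (hu : T.Adj k u) :
    (cover Q γ).IsBridge s((Sum.inr (k, y), g), (pos v₀ y u, g)) := by
  rw [SimpleGraph.isBridge_iff]
  rintro ⟨p⟩
  have h3 : ∀ p q : (V ⊕ ({w : W // w ≠ v₀} × Ps e)) × G,
      ((cover Q γ).deleteEdges {s((Sum.inr (k, y), g), (pos v₀ y u, g))}).Adj p q →
      (side T v₀ k y g u p → side T v₀ k y g u q) := by
    rintro ⟨v | ⟨k', y'⟩, g'⟩ q h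
    · obtain ⟨w | ⟨k', y'⟩, g''⟩ := q
      · exact id
      · exact (side_adj h2 k y g u _ _ h.symm ⟨k', y', rfl⟩).2
    · exact (side_adj h2 k y g u _ _ h ⟨k', y', rfl⟩).1
  have h4' : ∀ a b : (V ⊕ ({w : W // w ≠ v₀} × Ps e)) × G,
      ((cover Q γ).deleteEdges {s((Sum.inr (k, y), g), (pos v₀ y u, g))}).Walk a b →
      side T v₀ k y g u a → side T v₀ k y g u b := by
    intro a b p
    induction p with
    | nil => exact id
    | cons h _ ih => exact fun h5 => ih (h3 _ _ h h5)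
  have h4 := h4' _ _ p
  have h5 := h4 (Or.inl ⟨rfl, rfl, SimpleGraph.Reachable.refl _⟩)
  rw [side_pos] at h5
  have h6 := (SimpleGraph.isAcyclic_iff_forall_adj_isBridge.1 hT) hu
  rw [SimpleGraph.isBridge_iff] at h6
  rcases h5 with ⟨_, _, h5⟩ | ⟨h5, _⟩
  · exact h6 h5
  · exact h5 ⟨rfl, rfl⟩

/-- cycles do not contain vertices of the trees -/
theorem cycle_old (hT : T.IsAcyclic) (h2 : vmat Q γ = att T v₀ e N)
    {p₀ : (V ⊕ ({w : W // w ≠ v₀} × Ps e)) × G} {c : (cover Q γ).Walk p₀ p₀} (hc : c.IsCycle)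
    (x : {w : W // w ≠ v₀} × Ps e) (g : G) : (Sum.inr x, g) ∉ c.support := by
  intro hx
  have h3 := hc.ncard_neighborSet_toSubgraph_eq_two hx
  obtain ⟨q, hq⟩ : (c.toSubgraph.neighborSet (Sum.inr x, g)).Nonempty := by
    rw [Set.nonempty_iff_ne_empty]
    intro h0
    rw [h0, Set.ncard_empty] at h3
    omega
  have h4 : (cover Q γ).Adj (Sum.inr x, g) q := c.toSubgraph.adj_sub hq
  obtain ⟨k, y⟩ := x
  obtain ⟨u, hu, rfl⟩ := tree_nbr h2 h4
  exact (tree_bridge hT h2 k y g u hu).notMem_edges_of_isCycle hc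
    (SimpleGraph.Walk.adj_toSubgraph_iff_mem_edges.1 hq)

end

/-- the girth of the cover is large -/
theorem girth_long {T : SimpleGraph W} {v₀ : W} {N : Matrix V V (MonoidAlgebra ℂ G)} {m : ℕ}
    {e : V ⊕ (Fin (4 * m + 4) × Et N) → ℕ}
    {Q : SimpleGraph ((V ⊕ (Fin (4 * m + 4) × Et N)) ⊕ ({w : W // w ≠ v₀} × Ps e))}
    {γ : ((V ⊕ (Fin (4 * m + 4) × Et N)) ⊕ ({w : W // w ≠ v₀} × Ps e)) →
      ((V ⊕ (Fin (4 * m + 4) × Et N)) ⊕ ({w : W // w ≠ v₀} × Ps e)) → G}
    (hN : Vm N) (hT : T.IsAcyclic) (h2 : vmat Q γ = att T v₀ e (lng N m))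
    {p₀ : ((V ⊕ (Fin (4 * m + 4) × Et N)) ⊕ ({w : W // w ≠ v₀} × Ps e)) × G}
    {c : (cover Q γ).Walk p₀ p₀} (hc : c.IsCycle) : m < c.length := by
  classical
  -- two neighbours on the cycle
  have h3 : ∀ (x : V ⊕ (Fin (4 * m + 4) × Et N)) (g : G), (Sum.inl x, g) ∈ c.support →
      ∃ x₁ x₂ : V ⊕ (Fin (4 * m + 4) × Et N), x₁ ≠ x₂ ∧ x₁ ∈ nb (lng N m) x ∧
        x₂ ∈ nb (lng N m) x ∧
        (Sum.inl x₁, g * γ (Sum.inl x) (Sum.inl x₁)) ∈ c.support ∧
        (Sum.inl x₂, g * γ (Sum.inl x) (Sum.inl x₂)) ∈ c.support := by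
    intro x g hx
    have h4 := hc.ncard_neighborSet_toSubgraph_eq_two hx
    obtain ⟨q₁, q₂, hne, h5⟩ := Set.ncard_eq_two.1 h4
    have key : ∀ q ∈ c.toSubgraph.neighborSet (Sum.inl x, g),
        ∃ x₁, q = (Sum.inl x₁, g * γ (Sum.inl x) (Sum.inl x₁)) ∧ x₁ ∈ nb (lng N m) x ∧
          q ∈ c.support := by
      intro q hq
      have h6 : q ∈ c.support := SimpleGraph.Walk.mem_support_of_adj_toSubgraph
        (SimpleGraph.Subgraph.Adj.symm hq)
      have h7 := cov_adj h2 (c.toSubgraph.adj_sub hq)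
      obtain ⟨x₁ | y, g₁⟩ := q
      · refine ⟨x₁, Prod.ext rfl h7.2, h7.1, h6⟩
      · exact absurd h6 (cycle_old hT h2 hc y g₁)
    obtain ⟨x₁, a1, a2, a3⟩ := key q₁ (by rw [h5]; exact Or.inl rfl)
    obtain ⟨x₂, b1, b2, b3⟩ := key q₂ (by rw [h5]; exact Or.inr rfl)
    refine ⟨x₁, x₂, ?_, a2, b2, by rw [← a1]; exact a3, by rw [← b1]; exact b3⟩
    rintro rfl
    exact hne (a1.trans b1.symm)
  have hγ : ∀ (i j : Fin (4 * m + 4)) (ε : Et N), (i : ℕ) + 1 = j →
      γ (Sum.inl (Sum.inr (i, ε))) (Sum.inl (Sum.inr (j, ε))) = 1 ∧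
      γ (Sum.inl (Sum.inr (j, ε))) (Sum.inl (Sum.inr (i, ε))) = 1 := by
    intro i j ε hij
    have h4 : att T v₀ e (lng N m) (Sum.inl (Sum.inr (i, ε))) (Sum.inl (Sum.inr (j, ε))) = 1 :=
      lng_path N m ε i j hij
    have h5 : att T v₀ e (lng N m) (Sum.inl (Sum.inr (j, ε))) (Sum.inl (Sum.inr (i, ε))) = 1 := by
      change lng N m (Sum.inr (j, ε)) (Sum.inr (i, ε)) = 1
      rw [(vm_lng hN m).symm (Sum.inr (i, ε)) (Sum.inr (j, ε)), lng_path N m ε i j hij, st_one]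
    exact ⟨(adj_of h2 (h4.trans MonoidAlgebra.one_def)).2,
      (adj_of h2 (h5.trans MonoidAlgebra.one_def)).2⟩
  -- both neighbours of a vertex on a path
  have h4 : ∀ (i : Fin (4 * m + 4)) (ε : Et N) (g : G), (Sum.inl (Sum.inr (i, ε)), g) ∈ c.support →
      (∀ j : Fin (4 * m + 4), (j : ℕ) + 1 = i → (Sum.inl (Sum.inr (j, ε)), g) ∈ c.support) ∧
      (∀ j : Fin (4 * m + 4), (i : ℕ) + 1 = j → (Sum.inl (Sum.inr (j, ε)), g) ∈ c.support) := by
    intro i ε g hi
    obtain ⟨x₁, x₂, hne, a1, a2, b1, b2⟩ := h3 _ g hi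
    have c1 := nb_path N m i ε a1
    have c2 := nb_path N m i ε a2
    have h5 : ∀ z ∈ ({(if h : (i : ℕ) = 0 then Sum.inl ε.1.1 else Sum.inr (⟨i - 1, by omega⟩, ε)),
       (if h : (i : ℕ) = 4 * m + 3 then Sum.inl ε.1.2 else Sum.inr (⟨i + 1, by omega⟩, ε))} :
        Set (V ⊕ (Fin (4 * m + 4) × Et N))), z = x₁ ∨ z = x₂ := by
      rcases c1 with c1 | c1 <;> rcases c2 with c2 | c2
      · exact absurd (c1.trans c2.symm) hne
      · rintro z (hz | hz)
        · exact Or.inl (hz.trans c1.symm)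
        · exact Or.inr (hz.trans c2.symm)
      · rintro z (hz | hz)
        · exact Or.inr (hz.trans c2.symm)
        · exact Or.inl (hz.trans c1.symm)
      · exact absurd (c1.trans c2.symm) hne
    constructor
    · intro j hj
      have h6 := h5 (Sum.inr (j, ε)) (Or.inl (by
        rw [dif_neg (by omega)]
        congr 2
        exact Fin.ext (by simp only []; omega)))
      have h7 := (hγ j i ε hj).2
      rcases h6 with h6 | h6
      · rw [← h6, h7, mul_one] at b1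
        exact b1
      · rw [← h6, h7, mul_one] at b2
        exact b2
    · intro j hj
      have h6 := h5 (Sum.inr (j, ε)) (Or.inr (by
        rw [Set.mem_singleton_iff, dif_neg (by have := j.2; omega)]
        congr 2
        exact Fin.ext hj.symm))
      have h7 := (hγ i j ε hj).1
      rcases h6 with h6 | h6
      · rw [← h6, h7, mul_one] at b1
        exact b1
      · rw [← h6, h7, mul_one] at b2
        exact b2
  -- the whole path
  have h5 : ∀ (i : Fin (4 * m + 4)) (ε : Et N) (g : G), (Sum.inl (Sum.inr (i, ε)), g) ∈ c.support →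
      ∀ j : Fin (4 * m + 4), (Sum.inl (Sum.inr (j, ε)), g) ∈ c.support := by
    intro i ε g hi
    have up : ∀ n : ℕ, ∀ j : Fin (4 * m + 4), (j : ℕ) = i + n →
        (Sum.inl (Sum.inr (j, ε)), g) ∈ c.support := by
      intro n
      induction n with
      | zero =>
        intro j hj
        rwa [show j = i from Fin.ext hj]
      | succ n ih =>
        intro j hj
        have hj' := j.2
        exact (h4 ⟨i + n, by omega⟩ ε g (ih _ rfl)).2 j (by simp only []; omega)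
    have down : ∀ n : ℕ, ∀ j : Fin (4 * m + 4), (j : ℕ) + n = i →
        (Sum.inl (Sum.inr (j, ε)), g) ∈ c.support := by
      intro n
      induction n with
      | zero =>
        intro j hj
        rwa [show j = i from Fin.ext hj]
      | succ n ih =>
        intro j hj
        have hi' := i.2
        exact (h4 ⟨j + 1, by omega⟩ ε g (ih _ (by simp only []; omega))).1 j rfl
    intro j
    rcases le_total (i : ℕ) j with h | h
    · exact up (j - i) j (by omega)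
    · exact down (i - j) j (by omega)
  -- there is a vertex on a path
  have h6 : ∃ (i : Fin (4 * m + 4)) (ε : Et N) (g : G),
      (Sum.inl (Sum.inr (i, ε)), g) ∈ c.support := by
    obtain ⟨x | y, g⟩ := p₀
    · have hs : (Sum.inl x, g) ∈ c.support := c.start_mem_support
      rcases x with v | ⟨i, ε⟩
      · obtain ⟨x₁, x₂, _, a1, _, b1, _⟩ := h3 _ g hs
        obtain ⟨k, ε, rfl, _⟩ := (nb_branch hN m v).2 x₁ a1
        exact ⟨k, ε, _, b1⟩
      · exact ⟨i, ε, g, hs⟩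
    · exact absurd c.start_mem_support (cycle_old hT h2 hc y g)
  obtain ⟨i, ε, g, hi⟩ := h6
  have h7 : (Finset.univ.image fun j : Fin (4 * m + 4) =>
      ((Sum.inl (Sum.inr (j, ε)), g) : ((V ⊕ (Fin (4 * m + 4) × Et N)) ⊕
        ({w : W // w ≠ v₀} × Ps e)) × G)) ⊆ c.support.toFinset := by
    intro z hz
    obtain ⟨j, _, rfl⟩ := Finset.mem_image.1 hz
    exact List.mem_toFinset.2 (h5 i ε g hi j)
  have h8 := Finset.card_le_card h7
  rw [Finset.card_image_of_injective] at h8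
  · have h9 := c.support.toFinset_card_le
    rw [SimpleGraph.Walk.length_support] at h9
    rw [Finset.card_univ, Fintype.card_fin] at h8
    omega
  · intro j j' hj
    have := Sum.inr.inj (Sum.inl.inj (congrArg Prod.fst hj))
    exact congrArg Prod.fst this

end Pool.Agent.L0h7.TE
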