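import Pool.Agent.L0h7.TE.Diag

set_option autoImplicit false
set_option linter.unusedSectionVars false

/-! Matrices over the ring generated by a real number and the group as voltage matrices with a
diagonal part. -/

namespace Pool.Agent.L0h7.TE

open Matrix TH57.Thr.Ati Pool.Agent.R719.AT Pool.Agent.R472.Grid Pool.Agent.L0h7.CG

variable {G : Type} [Group G] {V : Type} [Fintype V] [DecidableEq V]

/-- separation of the two kinds of entries -/
theorem decomp (l : ℝ) (B : Matrix V V (MonoidAlgebra ℂ G))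
    (hB : ∀ i j, B i j = 0 ∨ B i j ∈ gens (Set.univ : Set G) {(l : ℂ)}) :
    ∃ B₁ E : Matrix V V (MonoidAlgebra ℂ G), Sg B₁ ∧ Sg E ∧ B = B₁ + (l : ℂ) • E := by
  have h : ∀ i j, ∃ b e : MonoidAlgebra ℂ G,
      (b = 0 ∨ ∃ s : G, b = MonoidAlgebra.single s 1 ∨ b = MonoidAlgebra.single s (-1)) ∧
      (e = 0 ∨ ∃ s : G, e = MonoidAlgebra.single s 1 ∨ e = MonoidAlgebra.single s (-1)) ∧
      B i j = b + (l : ℂ) • e := by
    intro i j
    rcases hB i j with h | ⟨s, _, h⟩ | ⟨t, ht, h⟩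
    · exact ⟨0, 0, Or.inl rfl, Or.inl rfl, by rw [h]; simp⟩
    · exact ⟨B i j, 0, Or.inr ⟨s, h⟩, Or.inl rfl, by simp⟩
    · rw [Set.mem_singleton_iff] at ht
      subst ht
      rcases h with h | h
      · exact ⟨0, MonoidAlgebra.single 1 1, Or.inl rfl, Or.inr ⟨1, Or.inl rfl⟩, by
          rw [h, MonoidAlgebra.smul_single, smul_eq_mul, mul_one, zero_add]⟩
      · exact ⟨0, MonoidAlgebra.single 1 (-1), Or.inl rfl, Or.inr ⟨1, Or.inr rfl⟩, by
          rw [h, MonoidAlgebra.smul_single, smul_eq_mul, mul_neg, mul_one, zero_add]⟩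
  choose b e hb he hbe using h
  refine ⟨Matrix.of b, Matrix.of e, fun i j => hb i j, fun i j => he i j, ?_⟩
  ext1 i j
  exact hbe i j

theorem sg_neg {B : Matrix V V (MonoidAlgebra ℂ G)} (hB : Sg B) : Sg (-B) := by
  intro i j
  rcases hB i j with h | ⟨s, h | h⟩
  · left; rw [Matrix.neg_apply, h, neg_zero]
  · right; exact ⟨s, Or.inr (by rw [Matrix.neg_apply, h, MonoidAlgebra.single_neg])⟩
  · right; exact ⟨s, Or.inl (by rw [Matrix.neg_apply, h, ← MonoidAlgebra.single_neg, neg_neg])⟩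

theorem sg_zero : Sg (0 : Matrix V V (MonoidAlgebra ℂ G)) := fun _ _ => Or.inl rfl

theorem sg_one : Sg (1 : Matrix V V (MonoidAlgebra ℂ G)) := by
  intro i j
  rw [Matrix.one_apply]
  split_ifs
  · exact Or.inr ⟨1, Or.inl MonoidAlgebra.one_def⟩
  · exact Or.inl rfl

theorem sg_blocks {A B C D : Matrix V V (MonoidAlgebra ℂ G)} (hA : Sg A) (hB : Sg B) (hC : Sg C)
    (hD : Sg D) : Sg (fromBlocks A B C D) := by
  rintro (i | i) (j | j)
  · exact hA i j
  · exact hB i j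
  · exact hC i j
  · exact hD i j

/-- the number `l` in one block only -/
theorem kap_one_block (l : ℂ) (B₁ E : Matrix V V (MonoidAlgebra ℂ G)) :
    kap (fromBlocks B₁ (l • (1 : Matrix V V (MonoidAlgebra ℂ G))) (-E) 1) =
      kap (B₁ + l • E) := by
  rw [kap_schur B₁ (l • (1 : Matrix V V (MonoidAlgebra ℂ G))) (-E) (S := (1 : Matrix V V (MonoidAlgebra ℂ G))) (S' := 1)
    (by simp) (by simp)]
  congr 1
  simp

/-- the self-adjoint matrix with `l` on the diagonal only -/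
theorem kap_real (l : ℝ) (B : Matrix (V ⊕ V) (V ⊕ V) (MonoidAlgebra ℂ G)) :
    kap (fromBlocks
      (fromBlocks (dg (l : ℂ) (Sum.elim (fun _ => 1) fun _ => 0)) B (sta B)
        (-1 - 1 + dg (l : ℂ) (Sum.elim (fun _ => 0) fun _ => 1)))
      (fromRows (fromBlocks (1 : Matrix V V (MonoidAlgebra ℂ G)) 0 0
          (0 : Matrix V V (MonoidAlgebra ℂ G)))
        (fromBlocks (0 : Matrix V V (MonoidAlgebra ℂ G)) 0 (-1)
          (0 : Matrix V V (MonoidAlgebra ℂ G))))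
      (fromCols (fromBlocks (1 : Matrix V V (MonoidAlgebra ℂ G)) 0 0
          (0 : Matrix V V (MonoidAlgebra ℂ G)))
        (fromBlocks (0 : Matrix V V (MonoidAlgebra ℂ G)) (-1) 0
          (0 : Matrix V V (MonoidAlgebra ℂ G))))
      (fromBlocks 0 1 1 (-((l : ℂ) • (1 : Matrix V V (MonoidAlgebra ℂ G)))))) =
    kap (B + fromBlocks 0 ((l : ℂ) • (1 : Matrix V V (MonoidAlgebra ℂ G))) 0 0) := by
  have h1 : (fromBlocks 0 1 1 (-((l : ℂ) • (1 : Matrix V V (MonoidAlgebra ℂ G))))) *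
      fromBlocks ((l : ℂ) • (1 : Matrix V V (MonoidAlgebra ℂ G))) 1 1 0 = 1 := by
    rw [fromBlocks_multiply, ← fromBlocks_one]
    congr 1 <;> simp
  have h2 : fromBlocks ((l : ℂ) • (1 : Matrix V V (MonoidAlgebra ℂ G))) 1 1 0 *
      (fromBlocks 0 1 1 (-((l : ℂ) • (1 : Matrix V V (MonoidAlgebra ℂ G))))) = 1 := by
    rw [fromBlocks_multiply, ← fromBlocks_one]
    congr 1 <;> simp
  rw [kap_schur _ _ _ h1 h2, ← kap_self_adj (B + fromBlocks 0 ((l : ℂ) • (1 : Matrix V V (MonoidAlgebra ℂ G))) 0 0)]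
  congr 1
  rw [sta_add, sta_fromBlocks, sta_zero, sta_smul, sta_one, dg_sum, dg_sum, dg_zero, dg_one,
    fromRows_mul, fromBlocks_multiply, fromBlocks_multiply, fromRows_mul_fromCols,
    fromBlocks_multiply, fromBlocks_multiply, fromBlocks_multiply, fromBlocks_multiply]
  simp only [Matrix.mul_zero, Matrix.zero_mul, Matrix.mul_one, Matrix.one_mul, Matrix.neg_mul,
    Matrix.mul_neg, add_zero, zero_add, neg_neg, neg_zero]
  ext1 i j
  rcases i with (i | i) | (i | i) <;> rcases j with (j | j) | (j | j) <;>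
    simp [Matrix.sub_apply, Matrix.add_apply]

/-- the voltage part -/
noncomputable def Xp (B : Matrix (V ⊕ V) (V ⊕ V) (MonoidAlgebra ℂ G)) :
    Matrix (((V ⊕ V) ⊕ (V ⊕ V)) ⊕ (V ⊕ V)) (((V ⊕ V) ⊕ (V ⊕ V)) ⊕ (V ⊕ V)) (MonoidAlgebra ℂ G) :=
  fromBlocks (fromBlocks 0 (ps B) (sta (ps B)) 0)
    (fromRows (fromBlocks (1 : Matrix V V (MonoidAlgebra ℂ G)) 0 0
      (0 : Matrix V V (MonoidAlgebra ℂ G))) 0)
    (fromCols (fromBlocks (1 : Matrix V V (MonoidAlgebra ℂ G)) 0 0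
      (0 : Matrix V V (MonoidAlgebra ℂ G))) 0)
    (fromBlocks 0 (1 : Matrix V V (MonoidAlgebra ℂ G)) 1 0)

/-- half of the negative part -/
noncomputable def Xn (B : Matrix (V ⊕ V) (V ⊕ V) (MonoidAlgebra ℂ G)) :
    Matrix (((V ⊕ V) ⊕ (V ⊕ V)) ⊕ (V ⊕ V)) (((V ⊕ V) ⊕ (V ⊕ V)) ⊕ (V ⊕ V)) (MonoidAlgebra ℂ G) :=
  fromBlocks (fromBlocks 0 (ps (-B)) 0 1)
    (fromRows 0 (fromBlocks (0 : Matrix V V (MonoidAlgebra ℂ G)) 0 1
      (0 : Matrix V V (MonoidAlgebra ℂ G)))) 0 0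

/-- the diagonal part -/
def dR : ((V ⊕ V) ⊕ (V ⊕ V)) ⊕ (V ⊕ V) → ℤ :=
  Sum.elim (Sum.elim (Sum.elim (fun _ => 1) fun _ => 0) (Sum.elim (fun _ => 0) fun _ => 1))
    (Sum.elim (fun _ => 0) fun _ => -1)

theorem mo_one (v w : V) : Mo ((1 : Matrix V V (MonoidAlgebra ℂ G)) v w) := by
  rw [Matrix.one_apply]
  split_ifs
  · exact Mo.one
  · exact Mo.zero

theorem Xp_vm (B : Matrix (V ⊕ V) (V ⊕ V) (MonoidAlgebra ℂ G)) : Vm (Xp B) := by
  refine ⟨?_, ?_, symm_of_sta ?_⟩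
  · rintro (((v | v) | (v | v)) | (v | v)) <;> rfl
  · rintro (((v | v) | (v | v)) | (v | v)) (((w | w) | (w | w)) | (w | w))
    all_goals first
      | exact Mo.zero
      | exact mo_one v w
      | exact ps_mo B _ _
      | exact Mo_st (ps_mo B _ _)
  · unfold Xp
    rw [sta_fromBlocks, sta_fromBlocks, sta_fromBlocks, sta_fromCols, sta_fromRows, sta_fromBlocks,
      sta_sta]
    simp only [sta_zero, sta_one]

theorem Xn_mo (B : Matrix (V ⊕ V) (V ⊕ V) (MonoidAlgebra ℂ G)) (v w) : Mo (Xn B v w) := by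
  rcases v with ((v | v) | (v | v)) | (v | v) <;> rcases w with ((w | w) | (w | w)) | (w | w)
  all_goals first
    | exact Mo.zero
    | exact mo_one v w
    | exact ps_mo (-B) _ _
    | exact mo_one (V := V ⊕ V) _ _

theorem volt_of_parts (P X : Matrix V V (MonoidAlgebra ℂ G)) (hP : Vm P)
    (hX : ∀ v w, Mo (X v w)) (d : V → ℤ) (hd : ∀ v, -1 ≤ d v ∧ d v ≤ 1) (l : ℂ) :
    ∃ (V' : Type) (_ : Fintype V') (_ : DecidableEq V') (N : Matrix V' V' (MonoidAlgebra ℂ G))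
      (d' : V' → ℤ), Vm N ∧ (Nonempty V → Nonempty V') ∧ (∀ v, -1 ≤ d' v ∧ d' v ≤ 1) ∧
        kap (N + dg l d') = kap (P + dg l d - X - sta X) := by
  refine ⟨V ⊕ (V ⊕ V), inferInstance, inferInstance, sdb P X (sta X) 0,
    Sum.elim d (fun _ => 0), vm_sdb hP Vm.zero hX, fun h => ⟨Sum.inl h.some⟩, ?_, ?_⟩
  · rintro (v | v)
    · exact hd v
    · simp
  · rw [kap_sdb_d, add_zero]

theorem exists_volt_d (l : ℝ) (B : Matrix V V (MonoidAlgebra ℂ G))
    (hB : ∀ i j, B i j = 0 ∨ B i j ∈ gens (Set.univ : Set G) {(l : ℂ)}) :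
    ∃ (V' : Type) (_ : Fintype V') (_ : DecidableEq V') (N : Matrix V' V' (MonoidAlgebra ℂ G))
      (d : V' → ℤ), Vm N ∧ (Nonempty V → Nonempty V') ∧ (∀ v, -1 ≤ d v ∧ d v ≤ 1) ∧
        kap (N + dg (l : ℂ) d) = kap B := by
  obtain ⟨B₁, E, h1, h2, rfl⟩ := decomp l B hB
  set B' : Matrix (V ⊕ V) (V ⊕ V) (MonoidAlgebra ℂ G) := fromBlocks B₁ 0 (-E) 1 with hB'
  have hs : Sg B' := sg_blocks h1 sg_zero (sg_neg h2) sg_one
  have h3 := ps_sub B' hs
  obtain ⟨V', i1, i2, N, d, hN, hne, hd, hk⟩ := volt_of_parts (Xp B') (Xn B') (Xp_vm B') (Xn_mo B') dR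
    (by rintro (((v | v) | (v | v)) | (v | v)) <;> simp [dR]) (l : ℂ)
  refine ⟨V', i1, i2, N, d, hN, fun h => hne ⟨Sum.inl (Sum.inl (Sum.inl h.some))⟩, hd, ?_⟩
  · have e1 : B' + fromBlocks 0 ((l : ℂ) • (1 : Matrix V V (MonoidAlgebra ℂ G))) 0 0 =
        fromBlocks B₁ ((l : ℂ) • (1 : Matrix V V (MonoidAlgebra ℂ G))) (-E) 1 := by
      rw [hB', fromBlocks_add]
      congr 1 <;> simp
    rw [hk, ← kap_one_block (l : ℂ) B₁ E, ← e1, ← kap_real l B']
    congr 1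
    have e2 : (dg (l : ℂ) (dR (V := V)) : Matrix _ _ (MonoidAlgebra ℂ G)) =
        fromBlocks (fromBlocks (dg (l : ℂ) (Sum.elim (fun _ => 1) fun _ => 0)) 0 0
          (dg (l : ℂ) (Sum.elim (fun _ => 0) fun _ => 1))) 0 0
          (fromBlocks 0 0 0 (-((l : ℂ) • (1 : Matrix V V (MonoidAlgebra ℂ G))))) := by
      unfold dR
      rw [dg_sum, dg_sum]
      congr 1
      rw [dg_sum, dg_zero, dg_neg_one]
    rw [e2]
    generalize (dg (l : ℂ) (Sum.elim (fun _ => 1) fun _ => 0) :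
      Matrix (V ⊕ V) (V ⊕ V) (MonoidAlgebra ℂ G)) = D1
    generalize (dg (l : ℂ) (Sum.elim (fun _ => 0) fun _ => 1) :
      Matrix (V ⊕ V) (V ⊕ V) (MonoidAlgebra ℂ G)) = D2
    generalize ((l : ℂ) • (1 : Matrix V V (MonoidAlgebra ℂ G))) = D3
    unfold Xp Xn
    rw [sta_fromBlocks, sta_fromBlocks, sta_fromRows, sta_fromBlocks]
    simp only [sta_zero, sta_one]
    generalize B' = B'' at h3 ⊢
    generalize ps (-B'') = Q at h3 ⊢
    generalize ps B'' = P at h3 ⊢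
    subst h3
    rw [sta_sub]
    ext1 i j
    rcases i with (i | i) | i <;> rcases j with (j | j) | j
    · simp
    · simp
    · rcases i with i | i <;> rcases j with j | j <;> simp
    · simp
    · simp
      abel
    · rcases i with i | i <;> rcases j with j | j <;> simp
    · rcases i with i | i <;> rcases j with j | j <;> simp
    · rcases i with i | i <;> rcases j with j | j <;> simp
    · rcases i with i | i <;> rcases j with j | j <;> simp

end Pool.Agent.L0h7.TE
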