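import Pool.Agent.L0h7.TE.Real
import Pool.Agent.L0h7.CG.Norm

set_option autoImplicit false
set_option linter.unusedSectionVars false

/-! Connectedness, degrees and long edges for voltage matrices with a diagonal part. -/

namespace Pool.Agent.L0h7.TE

open Matrix TH57.Thr.Ati Pool.Agent.R719.AT Pool.Agent.R472.Grid Pool.Agent.L0h7.CG

variable {G : Type} [Group G] {V : Type} [Fintype V] [DecidableEq V]

theorem cg_sdb (N : Matrix V V (MonoidAlgebra ℂ G)) (hN : Vm N) {n : ℕ}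
    (s : Fin n → G) (τ : V → V → G) (hτ : ∀ v w, τ w v = (τ v w)⁻¹) (v₀ : V)
    (h0 : ∀ w, τ v₀ w = 1) (hs : ∀ i, ∃ a b, a ≠ b ∧ τ a b = s i) :
    Cg (sdb N (Kh τ) (sta (Kh τ)) (Kt τ)) (Subgroup.closure (Set.range s)) := by
  have hvt := Kt_vm hτ
  have hvm := vm_sdb hN hvt (Kh_mo τ)
  set M := sdb N (Kh τ) (sta (Kh τ)) (Kt τ) with hM
  have h1 : ∀ (v : V) (g : G), Jg M (Sum.inr (Sum.inr v), g) (Sum.inr (Sum.inl v), g) :=
    fun v g => Jg.one g (Matrix.one_apply_eq v)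
  have h2 : ∀ (v : V) (g : G), Jg M (Sum.inr (Sum.inl v), g) (Sum.inl v, g) :=
    fun v g => Jg.one g (Matrix.one_apply_eq v)
  have h3 : ∀ (v w : V) (g : G), v ≠ w → Jg M (Sum.inr (Sum.inr v), g)
      (Sum.inr (Sum.inr w), g * τ v w) := by
    intro v w g h
    exact Jg.of g (if_neg h)
  have h4 : ∀ (w : V) (g : G), Jg M (Sum.inr (Sum.inr v₀), g) (Sum.inr (Sum.inr w), g) := by
    intro w g
    by_cases h : v₀ = w
    · rw [h]
      exact Jg.refl _
    · have := h3 v₀ w g h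
      rwa [h0, mul_one] at this
  have h5 : ∀ (i : Fin n) (g : G), Jg M (Sum.inr (Sum.inr v₀), g)
      (Sum.inr (Sum.inr v₀), g * s i) := by
    intro i g
    obtain ⟨a, b, hab, h7⟩ := hs i
    have h6 := h3 a b g hab
    rw [h7] at h6
    exact (h4 _ g).trans (h6.trans ((h4 _ _).symm hvm))
  have h8 : ∀ t ∈ Subgroup.closure (Set.range s), ∀ g, Jg M (Sum.inr (Sum.inr v₀), g)
      (Sum.inr (Sum.inr v₀), g * t) := by
    intro t ht
    induction ht using Subgroup.closure_induction with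
    | mem x hx =>
      obtain ⟨i, rfl⟩ := hx
      exact h5 i
    | one =>
      intro g
      rw [mul_one]
      exact Jg.refl _
    | mul x y _ _ hx hy =>
      intro g
      rw [← mul_assoc]
      exact (hx g).trans (hy _)
    | inv x _ hx =>
      intro g
      have := (hx (g * x⁻¹)).symm hvm
      rwa [inv_mul_cancel_right] at this
  refine cg_of hvm (Sum.inr (Sum.inr v₀)) ?_ fun g t ht => h8 t ht g
  rintro (v | v | v) g
  · exact (h4 v g).trans ((h1 v g).trans (h2 v g))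
  · exact (h4 v g).trans (h1 v g)
  · exact h4 v g

theorem lj_wb {N : Matrix V V (MonoidAlgebra ℂ G)} (hN : Vm N) (m : ℕ) :
    0 - Lj N m * Wb N m * sta (Lj N m) = N := by
  have z00 : (zc (Wn (4 * m + 4)) : Matrix _ _ (MonoidAlgebra ℂ G)) 0 0 = 0 := by
    change ((wN 0 0 : ℤ) : MonoidAlgebra ℂ G) = 0
    rw [wN_zero, Int.cast_zero]
  have z01 : (zc (Wn (4 * m + 4)) : Matrix _ _ (MonoidAlgebra ℂ G)) 0 (Fin.last (4 * m + 3))
      = -1 := by
    change ((wN 0 (4 * m + 3) : ℤ) : MonoidAlgebra ℂ G) = -1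
    rw [wN_end, Int.cast_neg, Int.cast_one]
  have z10 : (zc (Wn (4 * m + 4)) : Matrix _ _ (MonoidAlgebra ℂ G)) (Fin.last (4 * m + 3)) 0
      = -1 := by
    change ((wN (4 * m + 3) 0 : ℤ) : MonoidAlgebra ℂ G) = -1
    rw [wN_end', Int.cast_neg, Int.cast_one]
  have z11 : (zc (Wn (4 * m + 4)) : Matrix _ _ (MonoidAlgebra ℂ G)) (Fin.last (4 * m + 3))
      (Fin.last (4 * m + 3)) = 0 := by
    change ((wN (4 * m + 3) (4 * m + 3) : ℤ) : MonoidAlgebra ℂ G) = 0
    rw [wN_diag, Int.cast_zero]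
  have h3 : ∀ (v : V) (l : Fin (4 * m + 4)) (e : Et N),
      (Lj N m * Wb N m) v (l, e) =
        Lj N m v (0, e) * zc (Wn (4 * m + 4)) 0 l +
        Lj N m v (Fin.last (4 * m + 3), e) * zc (Wn (4 * m + 4)) (Fin.last (4 * m + 3)) l := by
    intro v l e
    rw [Matrix.mul_apply, Fintype.sum_prod_type_right, Finset.sum_eq_single e]
    · rw [sum_ends]
      · unfold Wb
        simp only [blockDiagonal_apply, if_true]
      · intro k hk1 hk2
        rw [Lj_other N m v k e hk1 hk2, zero_mul]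
    · intro e' _ he'
      refine Finset.sum_eq_zero fun k _ => ?_
      unfold Wb
      rw [blockDiagonal_apply, if_neg he', mul_zero]
    · intro h'
      exact absurd (Finset.mem_univ _) h'
  ext1 v w
  rw [Matrix.sub_apply, Matrix.zero_apply, zero_sub, Matrix.mul_apply, Fintype.sum_prod_type_right]
  have h4 : ∀ e : Et N, ∑ l : Fin (4 * m + 4),
      (Lj N m * Wb N m) v (l, e) *
        sta (Lj N m) (l, e) w = -((if e.1.1 = v ∧ e.1.2 = w then N v w else 0) +
          (if e.1.1 = w ∧ e.1.2 = v then st (N w v) else 0)) := by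
    intro e
    rw [sum_ends, h3, h3, z00, z01, z10, z11, mul_zero, mul_zero, zero_add, add_zero]
    · change Lj N m v (Fin.last (4 * m + 3), e) * -1 * st (Lj N m w (0, e)) +
        Lj N m v (0, e) * -1 * st (Lj N m w (Fin.last (4 * m + 3), e)) = _
      rw [Lj_zero, Lj_zero, Lj_last, Lj_last]
      obtain ⟨⟨a, b⟩, hab⟩ := e
      change (if b = v then (1 : MonoidAlgebra ℂ G) else 0) * -1 * st (if a = w then N a b else 0) +
        (if a = v then N a b else 0) * -1 * st (if b = w then (1 : MonoidAlgebra ℂ G) else 0) =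
        -((if a = v ∧ b = w then N v w else 0) + (if a = w ∧ b = v then st (N w v) else 0))
      have e1 : (if b = v then (1 : MonoidAlgebra ℂ G) else 0) * -1 *
          st (if a = w then N a b else 0) = -(if a = w ∧ b = v then st (N w v) else 0) := by
        by_cases a1 : b = v
        · by_cases a2 : a = w
          · rw [if_pos a1, if_pos a2, if_pos ⟨a2, a1⟩, a1, a2]
            simp
          · rw [if_neg a2, if_neg (show ¬ (a = w ∧ b = v) from fun h => a2 h.1), st_zero, mul_zero,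
              neg_zero]
        · rw [if_neg a1, if_neg (show ¬ (a = w ∧ b = v) from fun h => a1 h.2), zero_mul, zero_mul,
            neg_zero]
      have e2 : (if a = v then N a b else 0) * -1 *
          st (if b = w then (1 : MonoidAlgebra ℂ G) else 0) =
            -(if a = v ∧ b = w then N v w else 0) := by
        by_cases a1 : a = v
        · by_cases a2 : b = w
          · rw [if_pos a1, if_pos a2, if_pos ⟨a1, a2⟩, a1, a2, st_one]
            simp
          · rw [if_neg a2, if_neg (show ¬ (a = v ∧ b = w) from fun h => a2 h.2), st_zero, mul_zero,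
              neg_zero]
        · rw [if_neg a1, if_neg (show ¬ (a = v ∧ b = w) from fun h => a1 h.1), zero_mul, zero_mul,
            neg_zero]
      rw [e1, e2]
      abel
    · intro k hk1 hk2
      have : sta (Lj N m) (k, e) w = 0 := by
        change st (Lj N m w (k, e)) = 0
        rw [Lj_other N m w k e hk1 hk2, st_zero]
      rw [this, mul_zero]
  rw [Finset.sum_congr rfl fun e _ => h4 e, Finset.sum_neg_distrib, neg_neg,
    Finset.sum_add_distrib, sum_Et N v w _ (fun h => h),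
    sum_Et N w v _ (fun h => by rw [h, st_zero]), ← hN.symm w v]
  rcases lt_trichotomy ((Fintype.equivFin V) v) ((Fintype.equivFin V) w) with h | h | h
  · rw [if_pos h, if_neg (not_lt.2 h.le), add_zero]
  · have h' : v = w := (Fintype.equivFin V).injective h
    subst h'
    rw [if_neg (lt_irrefl _), add_zero, hN.irr]
  · rw [if_neg (not_lt.2 h.le), if_pos h, zero_add]


/-- bounds for the diagonal part -/
def Bd (d : V → ℤ) : Prop := ∀ v, -1 ≤ d v ∧ d v ≤ 1

theorem Bd.elim {W : Type} {d : V → ℤ} (h : Bd d) : Bd (Sum.elim d (fun _ : W => 0)) := by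
  rintro (v | v)
  · exact h v
  · simp

theorem exists_cg_d' (l : ℂ) (N : Matrix V V (MonoidAlgebra ℂ G)) (hN : Vm N)
    (d : V → ℤ) (hd : Bd d) {n : ℕ} (s : Fin n → G) (τ : V → V → G)
    (hτ : ∀ v w, τ w v = (τ v w)⁻¹) (v₀ : V) (h0 : ∀ w, τ v₀ w = 1)
    (hs : ∀ i, ∃ a b, a ≠ b ∧ τ a b = s i) :
    ∃ (V' : Type) (_ : Fintype V') (_ : DecidableEq V') (_ : Nonempty V')
      (N' : Matrix V' V' (MonoidAlgebra ℂ G)) (d' : V' → ℤ), Vm N' ∧
      Cg N' (Subgroup.closure (Set.range s)) ∧ Bd d' ∧ kap (N' + dg l d') = kap (N + dg l d) := by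
  refine ⟨V ⊕ (V ⊕ V), inferInstance, inferInstance, ⟨Sum.inl v₀⟩,
    sdb N (Kh τ) (sta (Kh τ)) (Kt τ), Sum.elim d (fun _ => 0),
    vm_sdb hN (Kt_vm hτ) (Kh_mo _), cg_sdb N hN s τ hτ v₀ h0 hs, hd.elim, ?_⟩
  rw [kap_sdb_d, ← Kh_add hτ]
  congr 1
  abel

theorem exists_cg_d [Nonempty V] (l : ℂ) (N : Matrix V V (MonoidAlgebra ℂ G)) (hN : Vm N)
    (d : V → ℤ) (hd : Bd d) {n : ℕ} (s : Fin n → G) :
    ∃ (V' : Type) (_ : Fintype V') (_ : DecidableEq V') (_ : Nonempty V')
      (N' : Matrix V' V' (MonoidAlgebra ℂ G)) (d' : V' → ℤ), Vm N' ∧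
      Cg N' (Subgroup.closure (Set.range s)) ∧ Bd d' ∧ kap (N' + dg l d') = kap (N + dg l d) := by
  obtain ⟨V', i1, i2, i3, N', d', h1, h2, h3, h4⟩ := exists_cg_d' l (newv N n) (newv_vm hN n)
    (Sum.elim d (fun _ => 0)) hd.elim s (tau s) (tau_inv s) (Sum.inl (Classical.arbitrary V))
    (tau_inl s _) fun i => ⟨Sum.inr (Sum.inl none), Sum.inr (Sum.inr (some i)),
        fun h => Sum.inl_ne_inr (Sum.inr.inj h), by simp [tau]⟩
  refine ⟨V', i1, i2, i3, N', d', h1, h2, h3, h4.trans ?_⟩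
  unfold newv
  have h1 : (fromBlocks 0 1 1 0 : Matrix (Option (Fin n) ⊕ Option (Fin n))
      (Option (Fin n) ⊕ Option (Fin n)) (MonoidAlgebra ℂ G)) * fromBlocks 0 1 1 0 = 1 := by
    simp [fromBlocks_multiply]
  rw [dg_add_fromBlocks, kap_schur _ _ _ h1 h1]
  simp

/-- one step -/
theorem lower_d (l : ℂ) (N : Matrix V V (MonoidAlgebra ℂ G)) (hN : Vm N) (d : V → ℤ) (hd : Bd d)
    {T : Subgroup G} (hc : Cg N T) (hne : Nonempty V) (D : ℕ) (hD : 3 ≤ D)
    (h : ∀ v, (nb N v).ncard ≤ D + 1) :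
    ∃ (N' : Matrix (V ⊕ ((V ⊕ V) ⊕ (V ⊕ V))) (V ⊕ ((V ⊕ V) ⊕ (V ⊕ V))) (MonoidAlgebra ℂ G))
      (d' : V ⊕ ((V ⊕ V) ⊕ (V ⊕ V)) → ℤ),
      Vm N' ∧ Cg N' T ∧ Bd d' ∧ (∀ v, (nb N' v).ncard ≤ D) ∧
        kap (N' + dg l d') = kap (N + dg l d) := by
  obtain ⟨σ, hσ⟩ := lower' N hN D hD h
  exact ⟨_, Sum.elim d (fun _ => 0),
    vm_dbl (part_vm hN σ True) (part_vm hN σ False) (part_mo hN σ True False),
    cg_dbl hN hc hne σ, hd.elim, hσ, by rw [kap_dbl_d, ← part_symm hN σ True False, part_sum]⟩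

theorem lower_all_d (l : ℂ) (T : Subgroup G) (k : ℕ) : ∀ (V : Type) [Fintype V] [DecidableEq V]
    (N : Matrix V V (MonoidAlgebra ℂ G)) (d : V → ℤ), Vm N → Cg N T → Bd d → Nonempty V →
    (∀ v, (nb N v).ncard ≤ 3 + k) →
    ∃ (V' : Type) (_ : Fintype V') (_ : DecidableEq V') (N' : Matrix V' V' (MonoidAlgebra ℂ G))
      (d' : V' → ℤ), Vm N' ∧ Cg N' T ∧ Bd d' ∧ Nonempty V' ∧ (∀ v, (nb N' v).ncard ≤ 3) ∧
        kap (N' + dg l d') = kap (N + dg l d) := by
  induction k with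
  | zero => exact fun V i1 i2 N d hN hc hd hne h => ⟨V, i1, i2, N, d, hN, hc, hd, hne, h, rfl⟩
  | succ k ih =>
    intro V i1 i2 N d hN hc hd hne h
    obtain ⟨N', d', hN', hc', hd', h', hk⟩ := lower_d l N hN d hd hc hne (3 + k) (by omega) h
    obtain ⟨V'', i3, i4, N'', d'', hN'', hc'', hd'', hne'', h'', hk'⟩ := ih _ N' d' hN' hc' hd'
      ⟨Sum.inl hne.some⟩ h'
    exact ⟨V'', i3, i4, N'', d'', hN'', hc'', hd'', hne'', h'', hk'.trans hk⟩

/-- the degree of the first copy -/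
theorem nb_corner (N : Matrix V V (MonoidAlgebra ℂ G)) (hN : Vm N) (σ : V → Set V) (v : V) :
    (nb (dbl (part N σ True True) (part N σ True False) (sta (part N σ True False))
      (part N σ False False)) (Sum.inl v)).ncard ≤ {w | N v w ≠ 0 ∧ w ∈ σ v}.ncard + 1 := by
  classical
  have h3 : sta (part N σ True False) = part N σ False True := (part_symm hN σ True False).symm
  rw [h3]
  refine (Set.ncard_le_ncard (t := insert (Sum.inr (Sum.inl (Sum.inl v)))
      ((cp σ v) '' {w | N v w ≠ 0 ∧ w ∈ σ v})) ?_ (Set.toFinite _)).trans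
      ((Set.ncard_insert_le _ _).trans (Nat.add_le_add_right (Set.ncard_image_le
        (Set.toFinite _)) 1))
  rintro (w | (w | w) | (w | w)) hw
  · obtain ⟨a1, a2, a3⟩ := part_ne (show part N σ True True v w ≠ 0 from hw)
    exact Or.inr ⟨w, ⟨a3, a1.2 trivial⟩, by unfold cp; rw [if_pos (a2.2 trivial)]⟩
  · left
    rw [one_ne' (show (1 : Matrix V V (MonoidAlgebra ℂ G)) v w ≠ 0 from hw)]
  · exact absurd rfl hw
  · exact absurd rfl hw
  · obtain ⟨a1, a2, a3⟩ := part_ne (show part N σ True False v w ≠ 0 from hw)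
    exact Or.inr ⟨w, ⟨a3, a1.2 trivial⟩, by unfold cp; rw [if_neg fun h => a2.1 h]⟩

/-- the vertices with a diagonal part get degree at most two -/
theorem half_d (l : ℂ) (N : Matrix V V (MonoidAlgebra ℂ G)) (hN : Vm N) (d : V → ℤ) (hd : Bd d)
    {T : Subgroup G} (hc : Cg N T) (hne : Nonempty V) (h : ∀ v, (nb N v).ncard ≤ 3) :
    ∃ (V' : Type) (_ : Fintype V') (_ : DecidableEq V') (N' : Matrix V' V' (MonoidAlgebra ℂ G))
      (d' : V' → ℤ), Vm N' ∧ Cg N' T ∧ Bd d' ∧ Nonempty V' ∧ (∀ v, (nb N' v).ncard ≤ 3) ∧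
        (∀ v, d' v ≠ 0 → (nb N' v).ncard ≤ 2) ∧ kap (N' + dg l d') = kap (N + dg l d) := by
  classical
  have h1 : ∀ v, ∃ s : Set V, s ⊆ nb N v ∧ s.ncard ≤ 1 ∧ (nb N v \ s).ncard + 1 ≤ 3 := by
    intro v
    by_cases hv : (nb N v).ncard ≤ 1
    · exact ⟨nb N v, le_refl _, hv, by simp⟩
    · have h2 : 1 ≤ (Set.toFinite (nb N v)).toFinset.card := by
        rw [← Set.ncard_eq_toFinset_card]
        omega
      obtain ⟨t, ht, htc⟩ := Finset.exists_subset_card_eq h2
      have h3 : (t : Set V) ⊆ nb N v := by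
        intro x hx
        have := ht (Finset.mem_coe.1 hx)
        exact (Set.Finite.mem_toFinset _).1 this
      refine ⟨t, h3, by rw [Set.ncard_coe_finset]; omega, ?_⟩
      rw [Set.ncard_sdiff h3, Set.ncard_coe_finset, htc]
      have := h v
      omega
  choose σ hσ1 hσ2 hσ3 using h1
  have h4 : ∀ v, {w | N v w ≠ 0 ∧ w ∈ σ v}.ncard ≤ (σ v).ncard := fun v =>
    Set.ncard_le_ncard (fun w hw => hw.2) (Set.toFinite _)
  refine ⟨V ⊕ ((V ⊕ V) ⊕ (V ⊕ V)), inferInstance, inferInstance, _, Sum.elim d (fun _ => 0),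
    vm_dbl (part_vm hN σ True) (part_vm hN σ False) (part_mo hN σ True False),
    cg_dbl hN hc hne σ, hd.elim, ⟨Sum.inl hne.some⟩, nb_dbl N hN σ 3 (by norm_num) ?_ hσ3, ?_,
    by rw [kap_dbl_d, ← part_symm hN σ True False, part_sum]⟩
  · intro v
    have := hσ2 v
    have := h4 v
    omega
  · rintro (v | v) hv
    · have := nb_corner N hN σ v
      have := hσ2 v
      have := h4 v
      omega
    · exact absurd rfl hv

theorem kap_lng_d (l : ℂ) {N : Matrix V V (MonoidAlgebra ℂ G)} (hN : Vm N) (d : V → ℤ) (m : ℕ) :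
    kap (lng N m + dg l (Sum.elim d (fun _ => 0))) = kap (N + dg l d) := by
  have hn : (4 * m + 4) % 2 = 0 := by omega
  have h1 : (blockDiagonal fun _ : Et N => (zc (Pn (4 * m + 4)) :
      Matrix (Fin (4 * m + 4)) (Fin (4 * m + 4)) (MonoidAlgebra ℂ G))) * Wb N m = 1 := by
    unfold Wb
    rw [← blockDiagonal_mul, zPW _ hn, ← Pi.one_def, blockDiagonal_one]
  have h2 : Wb N m * (blockDiagonal fun _ : Et N => (zc (Pn (4 * m + 4)) :
      Matrix (Fin (4 * m + 4)) (Fin (4 * m + 4)) (MonoidAlgebra ℂ G))) = 1 := by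
    unfold Wb
    rw [← blockDiagonal_mul, zWP _ hn, ← Pi.one_def, blockDiagonal_one]
  unfold lng
  rw [dg_add_fromBlocks, kap_schur _ _ _ h1 h2]
  congr 1
  have := lj_wb hN m
  rw [zero_add, sub_eq_add_neg, add_comm]
  rw [zero_sub] at this
  rw [this]

end Pool.Agent.L0h7.TE
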